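import Pool.Agent.H70.EW.Cnt

/-!
# The count for `k r + 1` lines, second part (MP_737bdd_co, windows `r / (k r + 1)`)
-/

set_option autoImplicit false
set_option linter.unusedSectionVars false

namespace Pool.Agent.H70.EW

open Finset
open scoped Classical

variable {P : Type} [Fintype P] [DecidableEq P]

theorem opp_card (A W : Finset P) :
    (univ.filter fun z : P × P => ¬ (z.1 ∈ A ↔ z.2 ∈ A) ∧ z.1 ∈ W ∧ z.2 ∈ W).card =
      2 * ((A ∩ W).card * (Aᶜ ∩ W).card) := by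
  have e : (univ.filter fun z : P × P => ¬ (z.1 ∈ A ↔ z.2 ∈ A) ∧ z.1 ∈ W ∧ z.2 ∈ W) =
      ((A ∩ W) ×ˢ (Aᶜ ∩ W)) ∪ ((Aᶜ ∩ W) ×ˢ (A ∩ W)) := by
    ext z
    simp only [mem_filter, mem_univ, true_and, mem_union, mem_product, mem_inter, mem_compl]
    tauto
  rw [e, card_union_of_disjoint, card_product, card_product]
  · ring
  · rw [disjoint_left]
    intro z hz hz'
    simp only [mem_product, mem_inter, mem_compl] at hz hz'
    exact hz'.1.1 hz.1.1

theorem same_card (A W : Finset P) :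
    (univ.filter fun z : P × P => (z.1 ∈ A ↔ z.2 ∈ A) ∧ (z.1 ∈ W ∨ z.2 ∈ W)).card +
      ((A \ W).card ^ 2 + (Aᶜ \ W).card ^ 2) = A.card ^ 2 + Aᶜ.card ^ 2 := by
  have e1 : (univ.filter fun z : P × P => (z.1 ∈ A ↔ z.2 ∈ A)) = (A ×ˢ A) ∪ (Aᶜ ×ˢ Aᶜ) := by
    ext z
    simp only [mem_filter, mem_univ, true_and, mem_union, mem_product, mem_compl]
    tauto
  have e2 : (univ.filter fun z : P × P => (z.1 ∈ A ↔ z.2 ∈ A)).card = A.card ^ 2 + Aᶜ.card ^ 2 := by
    rw [e1, card_union_of_disjoint, card_product, card_product]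
    · ring
    · rw [disjoint_left]
      intro z hz hz'
      simp only [mem_product, mem_compl] at hz hz'
      exact hz'.1 hz.1
  have e3 := card_filter_add_card_filter_not (s := univ.filter fun z : P × P => (z.1 ∈ A ↔ z.2 ∈ A))
    (fun z => z.1 ∈ W ∨ z.2 ∈ W)
  have e4 : ((univ.filter fun z : P × P => (z.1 ∈ A ↔ z.2 ∈ A)).filter
      fun z => ¬ (z.1 ∈ W ∨ z.2 ∈ W)) = ((A \ W) ×ˢ (A \ W)) ∪ ((Aᶜ \ W) ×ˢ (Aᶜ \ W)) := by
    ext z
    simp only [mem_filter, mem_univ, true_and, mem_union, mem_product, mem_sdiff, mem_compl]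
    tauto
  have e5 : (((A \ W) ×ˢ (A \ W)) ∪ ((Aᶜ \ W) ×ˢ (Aᶜ \ W))).card =
      (A \ W).card ^ 2 + (Aᶜ \ W).card ^ 2 := by
    rw [card_union_of_disjoint, card_product, card_product]
    · ring
    · rw [disjoint_left]
      intro z hz hz'
      simp only [mem_product, mem_sdiff, mem_compl] at hz hz'
      exact hz'.1.1 hz.1.1
  rw [e4, e5, filter_filter, e2] at e3
  exact e3

/-- the number of members of a list which separate a pair -/
noncomputable def ls (l : List (Finset P)) (z : P × P) : ℝ :=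
  (l.map fun C => if ¬ (z.1 ∈ C ↔ z.2 ∈ C) then (1 : ℝ) else 0).sum

theorem ls_nonneg (l : List (Finset P)) (z : P × P) : 0 ≤ ls l z := by
  unfold ls
  apply List.sum_nonneg
  intro x hx
  obtain ⟨C, _, rfl⟩ := List.mem_map.1 hx
  split_ifs <;> norm_num

theorem ls_cons (C : Finset P) (l : List (Finset P)) (z : P × P) :
    ls (C :: l) z = (if ¬ (z.1 ∈ C ↔ z.2 ∈ C) then (1 : ℝ) else 0) + ls l z := by
  unfold ls
  rw [List.map_cons, List.sum_cons]

theorem ls_ge (l : List (Finset P)) (z : P × P) :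
    (∀ C ∈ l, (z.1 ∈ C ↔ z.2 ∈ C)) ∨ 1 ≤ ls l z := by
  induction l with
  | nil => exact Or.inl (by simp)
  | cons C l ih =>
    rw [ls_cons]
    have h0 := ls_nonneg l z
    by_cases h : (z.1 ∈ C ↔ z.2 ∈ C)
    · rcases ih with ih | ih
      · left
        intro D hD
        rcases List.mem_cons.1 hD with h' | h'
        · rw [h']
          exact h
        · exact ih D h'
      · right
        rw [if_neg (not_not.2 h)]
        linarith
    · right
      rw [if_pos h]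
      linarith

theorem ls_sum (E : Finset (P × P)) (Mb : ℝ) (l : List (Finset P))
    (h : ∀ C ∈ l, (∑ z ∈ E, if ¬ (z.1 ∈ C ↔ z.2 ∈ C) then (1 : ℝ) else 0) ≤ Mb) :
    ∑ z ∈ E, ls l z ≤ l.length * Mb := by
  induction l with
  | nil =>
    unfold ls
    simp
  | cons C l ih =>
    have h1 := h C (by simp)
    have h2 := ih fun D hD => h D (List.mem_cons_of_mem _ hD)
    simp only [ls_cons, sum_add_distrib, List.length_cons]
    push_cast
    linarith

/-- the term of the class `j` -/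
noncomputable def tj (A W : Finset P) (l : List (Finset P)) (z : P × P) : ℝ :=
  (if z ∈ un l (A \ W) then 1 else 0) + (if z ∈ un l (Aᶜ \ W) then 1 else 0) +
    (if (z.1 ∈ A ↔ z.2 ∈ A) ∧ (z.1 ∈ W ∨ z.2 ∈ W) then 1 else 0) +
    (if ¬ (z.1 ∈ A ↔ z.2 ∈ A) ∧ z.1 ∈ W ∧ z.2 ∈ W then 1 else 0)

theorem tj_nonneg (A W : Finset P) (l : List (Finset P)) (z : P × P) : 0 ≤ tj A W l z := by
  unfold tj
  positivity

theorem tj_ge (A W : Finset P) (l : List (Finset P)) (z : P × P) :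
    1 ≤ (if ¬ (z.1 ∈ A ↔ z.2 ∈ A) then (1 : ℝ) else 0) + ls l z + tj A W l z := by
  have h0 := ls_nonneg l z
  have h1 := tj_nonneg A W l z
  by_cases h : (z.1 ∈ A ↔ z.2 ∈ A)
  · rw [if_neg (not_not.2 h)]
    rcases ls_ge l z with h2 | h2
    · have h3 : 1 ≤ tj A W l z := by
        unfold tj
        by_cases h4 : z.1 ∈ W ∨ z.2 ∈ W
        · rw [if_pos (show (z.1 ∈ A ↔ z.2 ∈ A) ∧ (z.1 ∈ W ∨ z.2 ∈ W) from ⟨h, h4⟩)]
          have e1 : (0 : ℝ) ≤ (if z ∈ un l (A \ W) then 1 else 0) := by positivity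
          have e2 : (0 : ℝ) ≤ (if z ∈ un l (Aᶜ \ W) then 1 else 0) := by positivity
          have e3 : (0 : ℝ) ≤ (if ¬ (z.1 ∈ A ↔ z.2 ∈ A) ∧ z.1 ∈ W ∧ z.2 ∈ W then 1 else 0) := by
            positivity
          linarith
        · push Not at h4
          have e3 : (0 : ℝ) ≤ (if ¬ (z.1 ∈ A ↔ z.2 ∈ A) ∧ z.1 ∈ W ∧ z.2 ∈ W then 1 else 0) := by
            positivity
          have e4 : (0 : ℝ) ≤ (if (z.1 ∈ A ↔ z.2 ∈ A) ∧ (z.1 ∈ W ∨ z.2 ∈ W) then 1 else 0) := by
            positivity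
          have e1 : (0 : ℝ) ≤ (if z ∈ un l (A \ W) then 1 else 0) := by positivity
          have e2 : (0 : ℝ) ≤ (if z ∈ un l (Aᶜ \ W) then 1 else 0) := by positivity
          by_cases h5 : z.1 ∈ A
          · have h6 : z ∈ un l (A \ W) := by
              unfold un
              rw [mem_filter, mem_product, mem_sdiff, mem_sdiff]
              exact ⟨⟨⟨h5, h4.1⟩, h.1 h5, h4.2⟩, h2⟩
            rw [if_pos h6]
            linarith
          · have h6 : z ∈ un l (Aᶜ \ W) := by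
              unfold un
              rw [mem_filter, mem_product, mem_sdiff, mem_sdiff, mem_compl, mem_compl]
              exact ⟨⟨⟨h5, h4.1⟩, fun h' => h5 (h.2 h'), h4.2⟩, h2⟩
            rw [if_pos h6]
            linarith
      linarith
    · linarith
  · rw [if_pos h]
    linarith

/-- the sum of the terms of a class -/
theorem tj_sum {A W : Finset P} {l : List (Finset P)} {k : ℕ} (hA : 2 * A.card = Fintype.card P)
    (h1 : ((un l (A \ W)).card : ℝ) ≤ ((A \ W).card : ℝ) ^ 2 / (k + 1) + 2 * k)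
    (h2 : ((un l (Aᶜ \ W)).card : ℝ) ≤ ((Aᶜ \ W).card : ℝ) ^ 2 / (k + 1) + 2 * k) :
    ∑ z : P × P, tj A W l z ≤ (Fintype.card P : ℝ) ^ 2 / 2 -
      k / (k + 1) * ((Fintype.card P : ℝ) - W.card) ^ 2 / 2 + (W.card : ℝ) ^ 2 / 2 + 4 * k := by
  have e0 : ∑ z : P × P, tj A W l z = ((un l (A \ W)).card : ℝ) + (un l (Aᶜ \ W)).card +
      (univ.filter fun z : P × P => (z.1 ∈ A ↔ z.2 ∈ A) ∧ (z.1 ∈ W ∨ z.2 ∈ W)).card +
      (univ.filter fun z : P × P => ¬ (z.1 ∈ A ↔ z.2 ∈ A) ∧ z.1 ∈ W ∧ z.2 ∈ W).card := by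
    unfold tj
    rw [sum_add_distrib, sum_add_distrib, sum_add_distrib, sum_boole, sum_boole, sum_boole,
      sum_boole]
    have e1 : (univ.filter fun z : P × P => z ∈ un l (A \ W)) = un l (A \ W) := by
      ext z
      simp
    have e2 : (univ.filter fun z : P × P => z ∈ un l (Aᶜ \ W)) = un l (Aᶜ \ W) := by
      ext z
      simp
    rw [e1, e2]
  rw [e0, opp_card]
  have e1 := same_card A W
  have e2 : ((univ.filter fun z : P × P => (z.1 ∈ A ↔ z.2 ∈ A) ∧ (z.1 ∈ W ∨ z.2 ∈ W)).card : ℝ) +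
      (((A \ W).card : ℝ) ^ 2 + ((Aᶜ \ W).card : ℝ) ^ 2) = (A.card : ℝ) ^ 2 + (Aᶜ.card : ℝ) ^ 2 := by
    exact_mod_cast e1
  have e3 : (A.card : ℝ) = (Fintype.card P : ℝ) / 2 := by
    have : (2 : ℝ) * A.card = Fintype.card P := by exact_mod_cast hA
    linarith
  have e4 : (Aᶜ.card : ℝ) = (Fintype.card P : ℝ) / 2 := by
    have h3 := card_add_card_compl A
    have h4 : (A.card : ℝ) + Aᶜ.card = Fintype.card P := by exact_mod_cast h3
    linarith
  have e5 : ((A \ W).card : ℝ) + (A ∩ W).card = A.card := by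
    exact_mod_cast card_sdiff_add_card_inter A W
  have e6 : ((Aᶜ \ W).card : ℝ) + (Aᶜ ∩ W).card = Aᶜ.card := by
    exact_mod_cast card_sdiff_add_card_inter Aᶜ W
  have e7 : ((A ∩ W).card : ℝ) + (Aᶜ ∩ W).card = W.card := by
    have h3 : (W ∩ A).card + (W \ A).card = W.card := card_inter_add_card_sdiff W A
    have h4 : Aᶜ ∩ W = W \ A := by
      ext x
      simp only [mem_inter, mem_compl, mem_sdiff]
      exact and_comm
    rw [h4, inter_comm A W]
    exact_mod_cast h3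
  push_cast
  set p : ℝ := ((Fintype.card P : ℕ) : ℝ)
  set x : ℝ := ((A \ W).card : ℝ)
  set y : ℝ := ((Aᶜ \ W).card : ℝ)
  set a : ℝ := ((A ∩ W).card : ℝ)
  set b : ℝ := ((Aᶜ ∩ W).card : ℝ)
  set w : ℝ := (W.card : ℝ)
  have hk : (0 : ℝ) < (k : ℝ) + 1 := by positivity
  have hk0 : (0 : ℝ) ≤ (k : ℝ) / (k + 1) := by positivity
  have e8 : x + y = p - w := by linarith
  have e9 : x ^ 2 / ((k : ℝ) + 1) = x ^ 2 - k / (k + 1) * x ^ 2 := by
    field_simp
    ring
  have e10 : y ^ 2 / ((k : ℝ) + 1) = y ^ 2 - k / (k + 1) * y ^ 2 := by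
    field_simp
    ring
  have e11 : (p - w) ^ 2 / 2 ≤ x ^ 2 + y ^ 2 := by
    rw [← e8]
    nlinarith [sq_nonneg (x - y)]
  have e12 : 2 * (a * b) ≤ w ^ 2 / 2 := by
    rw [← e7]
    nlinarith [sq_nonneg (a - b)]
  have e13 : (k : ℝ) / (k + 1) * ((p - w) ^ 2 / 2) ≤ k / (k + 1) * (x ^ 2 + y ^ 2) :=
    mul_le_mul_of_nonneg_left e11 hk0
  have e14 : (k : ℝ) / (k + 1) * (p - w) ^ 2 / 2 = k / (k + 1) * ((p - w) ^ 2 / 2) := by ring
  rw [e14]
  rw [e9] at h1
  rw [e10] at h2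
  rw [e3, e4] at e2
  nlinarith

end Pool.Agent.H70.EW
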