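import Mathlib

/-!
# `k` cuts which split the two sides of a cut into `k + 1` parts each (MP_737bdd_co)
-/

set_option autoImplicit false

namespace Pool.Agent.H70.EW

open Finset
open scoped Classical

variable {P : Type} [Fintype P] [DecidableEq P]

/-- the ordered pairs of points of `R` which are separated by no member of `l` -/
noncomputable def un (l : List (Finset P)) (R : Finset P) : Finset (P × P) :=
  (R ×ˢ R).filter fun z => ∀ C ∈ l, (z.1 ∈ C ↔ z.2 ∈ C)

theorem bsp_ar {q x a : ℝ} (hq : 1 ≤ q) (h1 : (q + 1) * a ≤ x) (h2 : x ≤ (q + 1) * (a + 1)) :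
    a ^ 2 + (x - a) ^ 2 / q ≤ x ^ 2 / (q + 1) + 2 := by
  have hq0 : 0 < q := by linarith
  have hq1 : 0 < q + 1 := by linarith
  have e : x ^ 2 / (q + 1) + 2 - (a ^ 2 + (x - a) ^ 2 / q) =
      (2 * q * (q + 1) - ((q + 1) * a - x) ^ 2) / (q * (q + 1)) := by
    field_simp
    ring
  have h3 : 0 ≤ (2 * q * (q + 1) - ((q + 1) * a - x) ^ 2) / (q * (q + 1)) := by
    apply div_nonneg _ (by positivity)
    nlinarith
  linarith

theorem un_cons (C : Finset P) (l : List (Finset P)) (R : Finset P) :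
    (un (C :: l) R).card ≤ (C ∩ R).card ^ 2 + (un l (R \ C)).card := by
  have hsub : un (C :: l) R ⊆ ((C ∩ R) ×ˢ (C ∩ R)) ∪ un l (R \ C) := by
    intro z hz
    unfold un at hz ⊢
    simp only [mem_filter, mem_product, mem_union, mem_inter, mem_sdiff, List.mem_cons,
      forall_eq_or_imp] at hz ⊢
    by_cases h : z.1 ∈ C
    · left
      exact ⟨⟨h, hz.1.1⟩, hz.2.1.1 h, hz.1.2⟩
    · right
      exact ⟨⟨⟨hz.1.1, h⟩, hz.1.2, fun h' => h (hz.2.1.2 h')⟩, hz.2.2⟩
  refine (card_le_card hsub).trans ((card_union_le _ _).trans ?_)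
  rw [card_product, sq]

theorem un_nil (R : Finset P) : (un [] R).card = R.card ^ 2 := by
  unfold un
  rw [filter_true_of_mem (fun z _ => by simp), card_product, sq]

theorem bsp_step {k : ℕ} (C : Finset P) (l : List (Finset P)) (R : Finset P)
    (hC : (C ∩ R).card = R.card / (k + 2))
    (hl : ((un l (R \ C)).card : ℝ) ≤ ((R \ C).card : ℝ) ^ 2 / (k + 1) + 2 * k) :
    ((un (C :: l) R).card : ℝ) ≤ (R.card : ℝ) ^ 2 / ((k + 1 : ℕ) + 1) + 2 * (k + 1 : ℕ) := by
  have h1 : ((un (C :: l) R).card : ℝ) ≤ ((C ∩ R).card : ℝ) ^ 2 + (un l (R \ C)).card := by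
    exact_mod_cast un_cons C l R
  have h2 : ((R \ C).card : ℝ) = R.card - (C ∩ R).card := by
    have e := card_sdiff_add_card_inter R C
    rw [inter_comm R C] at e
    have e' : ((R \ C).card : ℝ) + (C ∩ R).card = R.card := by exact_mod_cast e
    linarith
  have h3 : ((k : ℝ) + 1 + 1) * ((C ∩ R).card : ℝ) ≤ R.card := by
    rw [hC]
    have := Nat.mul_div_le R.card (k + 2)
    have h4 : (((k + 2) * (R.card / (k + 2)) : ℕ) : ℝ) ≤ R.card := by exact_mod_cast this
    push_cast at h4 ⊢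
    linarith
  have h4 : (R.card : ℝ) ≤ ((k : ℝ) + 1 + 1) * (((C ∩ R).card : ℝ) + 1) := by
    rw [hC]
    have := Nat.lt_mul_div_succ R.card (show 0 < k + 2 by omega)
    have h5 : (R.card : ℝ) ≤ (((k + 2) * (R.card / (k + 2) + 1) : ℕ) : ℝ) := by exact_mod_cast this.le
    push_cast at h5 ⊢
    linarith
  have h5 := bsp_ar (q := (k : ℝ) + 1) (by have : (0 : ℝ) ≤ k := Nat.cast_nonneg k
                                           linarith) h3 h4
  rw [h2] at hl
  push_cast
  linarith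

/-- `k` cuts which split `R` and `R'` into `k + 1` almost equal parts each -/
theorem bsp {cut : Finset P → Prop} {S₀ : Finset P}
    (two : ∀ R ⊆ S₀, ∀ R' ⊆ S₀ᶜ, ∀ a ≤ R.card, ∀ b ≤ R'.card, ∃ C, cut C ∧
      (C ∩ R).card = a ∧ (C ∩ R').card = b) (k : ℕ) :
    ∀ R ⊆ S₀, ∀ R' ⊆ S₀ᶜ, ∃ l : List (Finset P), l.length = k ∧ (∀ C ∈ l, cut C) ∧
      ((un l R).card : ℝ) ≤ (R.card : ℝ) ^ 2 / (k + 1) + 2 * k ∧
      ((un l R').card : ℝ) ≤ (R'.card : ℝ) ^ 2 / (k + 1) + 2 * k := by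
  induction k with
  | zero =>
    intro R _ R' _
    refine ⟨[], rfl, by simp, ?_, ?_⟩
    · rw [un_nil]
      push_cast
      simp
    · rw [un_nil]
      push_cast
      simp
  | succ k ih =>
    intro R hR R' hR'
    obtain ⟨C, hC, h1, h2⟩ := two R hR R' hR' (R.card / (k + 2)) (Nat.div_le_self _ _)
      (R'.card / (k + 2)) (Nat.div_le_self _ _)
    obtain ⟨l, h3, h4, h5, h6⟩ := ih (R \ C) (sdiff_subset.trans hR) (R' \ C)
      (sdiff_subset.trans hR')
    refine ⟨C :: l, by simp [h3], ?_, bsp_step C l R h1 h5, bsp_step C l R' h2 h6⟩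
    intro D hD
    rcases List.mem_cons.1 hD with h | h
    · rw [h]
      exact hC
    · exact h4 D h

end Pool.Agent.H70.EW
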