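import Pool.Agent.H70.EW.Cn2

/-!
# The count for `k r + 1` lines, main inequality (MP_737bdd_co, windows `r / (k r + 1)`)
-/

set_option autoImplicit false
set_option linter.unusedSectionVars false

namespace Pool.Agent.H70.EW

open Finset
open scoped Classical

theorem ar_main {k r p μ : ℝ} (hk : 0 ≤ k) (hr : 0 ≤ r) (hp : p = ((k + 1) * r + 1) * μ) :
    r * (p ^ 2 / 2 - k / (k + 1) * (p - μ) ^ 2 / 2 + μ ^ 2 / 2) - p ^ 2 / 2 + (p - r * μ) ^ 2 / 2 =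
      r ^ 2 * p ^ 2 / (2 * ((k + 1) * r + 1)) := by
  have hk1 : 0 < k + 1 := by linarith
  have hL : 0 < (k + 1) * r + 1 := by positivity
  have e1 : r ^ 2 * p ^ 2 / (2 * ((k + 1) * r + 1)) = r ^ 2 * ((k + 1) * r + 1) * μ ^ 2 / 2 := by
    rw [hp]
    field_simp
  have e2 : p - μ = (k + 1) * (r * μ) := by rw [hp]; ring
  have e3 : k / (k + 1) * (p - μ) ^ 2 / 2 = k * (k + 1) * (r * μ) ^ 2 / 2 := by
    rw [e2]
    field_simp
  rw [e1, e3, hp]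
  ring

theorem ar_err {κ p μ w : ℝ} (hκ0 : 0 ≤ κ) (hκ1 : κ ≤ 1) (hw0 : 0 ≤ w) (hwp : w ≤ p) (hμ0 : 0 ≤ μ)
    (hμp : μ ≤ p) (h1 : w ≤ μ + 2) :
    -(κ * (p - w) ^ 2 / 2) + w ^ 2 / 2 ≤ -(κ * (p - μ) ^ 2 / 2) + μ ^ 2 / 2 + 2 * p := by
  have hB0 : 0 ≤ κ * (2 * p - w - μ) + (w + μ) := by
    have : 0 ≤ κ * (2 * p - w - μ) := mul_nonneg hκ0 (by linarith)
    linarith
  have hB1 : κ * (2 * p - w - μ) + (w + μ) ≤ 2 * p := by
    have : κ * (2 * p - w - μ) ≤ 1 * (2 * p - w - μ) :=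
      mul_le_mul_of_nonneg_right hκ1 (by linarith)
    linarith
  have h2 : (w - μ) * (κ * (2 * p - w - μ) + (w + μ)) ≤ 2 * (κ * (2 * p - w - μ) + (w + μ)) :=
    mul_le_mul_of_nonneg_right (by linarith) hB0
  nlinarith

theorem ar_err0 {r p q w : ℝ} (hr : 0 ≤ r) (hw0 : 0 ≤ w) (hwp : w ≤ p) (hq0 : 0 ≤ q)
    (hqp : q ≤ p) (h1 : w ≤ q + r) : w ^ 2 / 2 ≤ q ^ 2 / 2 + r * p := by
  have h2 : (w - q) * (w + q) ≤ r * (w + q) := mul_le_mul_of_nonneg_right (by linarith) (by linarith)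
  have h3 : r * (w + q) ≤ r * (2 * p) := mul_le_mul_of_nonneg_left (by linarith) hr
  nlinarith

variable {P : Type} [Fintype P] [DecidableEq P]

theorem cnt {T : ℕ} {S : ℕ → Finset P} {cut : Finset P → Prop} (h : Seq T S cut)
    (E : Finset (P × P)) (Mb : ℕ)
    (hM : ∀ C, cut C → (E.filter fun z => ¬ (z.1 ∈ C ↔ z.2 ∈ C)).card ≤ Mb) (k r : ℕ) :
    (r : ℝ) * E.card ≤ ((k + 1) * r + 1) * Mb +
      r ^ 2 * (Fintype.card P : ℝ) ^ 2 / (2 * ((k + 1) * r + 1)) + 3 * r * Fintype.card P +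
        4 * k * r := by
  set L : ℕ := (k + 1) * r + 1 with hL
  set μ : ℕ := Fintype.card P / L with hμ
  have hLpos : 0 < L := by omega
  have hμL : L * μ ≤ Fintype.card P := Nat.mul_div_le _ _
  have hμL2 : Fintype.card P < L * (μ + 1) := Nat.lt_mul_div_succ _ hLpos
  have hrL : r ≤ L := by
    rw [hL]
    nlinarith
  have hrμ : r * μ ≤ Fintype.card P := (Nat.mul_le_mul_right _ hrL).trans hμL
  obtain ⟨τ, h0, hT, hU⟩ := pick h μ r hrμ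
  set F := Fl S τ with hF
  have hF0 : F 0 = ∅ := by
    rw [hF]
    unfold Fl
    rw [h0, symmDiff_self]
    rfl
  choose l hl1 hl2 hl3 hl4 using fun j : ℕ => bsp (cut := cut) (S₀ := S (τ (j + 1)))
    (h.two (τ (j + 1)) (hT _)) k (S (τ (j + 1)) \ Wm F (j + 1)) sdiff_subset
    ((S (τ (j + 1)))ᶜ \ Wm F (j + 1)) sdiff_subset
  -- the functions
  let φ : P × P → ℝ := fun z => ∑ j ∈ range r, tj (S (τ (j + 1))) (Wm F (j + 1)) (l j) z -
    (if ¬ (z.1 ∈ S 0 ↔ z.2 ∈ S 0) then 1 else 0) +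
    (if ¬ (z.1 ∈ S 0 ↔ z.2 ∈ S 0) ∧ z.1 ∈ (Un F r)ᶜ ∧ z.2 ∈ (Un F r)ᶜ then 1 else 0)
  have hφ : ∀ z, 0 ≤ φ z := by
    intro z
    have hs0 : 0 ≤ ∑ j ∈ range r, tj (S (τ (j + 1))) (Wm F (j + 1)) (l j) z :=
      sum_nonneg fun j _ => tj_nonneg _ _ _ _
    have hd0 : (0 : ℝ) ≤ (if ¬ (z.1 ∈ S 0 ↔ z.2 ∈ S 0) ∧ z.1 ∈ (Un F r)ᶜ ∧ z.2 ∈ (Un F r)ᶜ
        then 1 else 0) := by positivity
    show 0 ≤ _ - _ + _
    by_cases ho : (z.1 ∈ S 0 ↔ z.2 ∈ S 0)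
    · rw [if_neg (not_not.2 ho)]
      linarith
    · rw [if_pos ho]
      have hge : ∀ j < r, 1 ≤ tj (S (τ (j + 1))) (Wm F (j + 1)) (l j) z →
          1 ≤ ∑ j ∈ range r, tj (S (τ (j + 1))) (Wm F (j + 1)) (l j) z := by
        intro j hj h1
        exact h1.trans (single_le_sum (f := fun j => tj (S (τ (j + 1))) (Wm F (j + 1)) (l j) z)
          (fun j _ => tj_nonneg _ _ _ _) (mem_range.2 hj))
      have hmem : ∀ (x : P) (j : ℕ), x ∈ F j ↔ ¬ (x ∈ S (τ j) ↔ x ∈ S 0) := by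
        intro x j
        rw [hF]
        unfold Fl
        rw [mem_symmDiff]
        tauto
      rcases marks F hF0 r z.1 z.2 with ⟨j, hj, h1, h2⟩ | ⟨j, hj, h1, h2⟩ | ⟨h1, h2⟩
      · have h3 : (z.1 ∈ S (τ (j + 1)) ↔ z.2 ∈ S (τ (j + 1))) := by
          rw [hmem, hmem] at h2
          tauto
        have h4 : 1 ≤ tj (S (τ (j + 1))) (Wm F (j + 1)) (l j) z := by
          unfold tj
          rw [if_pos (show (z.1 ∈ S (τ (j + 1)) ↔ z.2 ∈ S (τ (j + 1))) ∧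
            (z.1 ∈ Wm F (j + 1) ∨ z.2 ∈ Wm F (j + 1)) from ⟨h3, h1⟩)]
          have e1 : (0 : ℝ) ≤ (if z ∈ un (l j) (S (τ (j + 1)) \ Wm F (j + 1)) then 1 else 0) := by
            positivity
          have e2 : (0 : ℝ) ≤ (if z ∈ un (l j) ((S (τ (j + 1)))ᶜ \ Wm F (j + 1)) then 1 else 0) := by
            positivity
          have e3 : (0 : ℝ) ≤ (if ¬ (z.1 ∈ S (τ (j + 1)) ↔ z.2 ∈ S (τ (j + 1))) ∧
            z.1 ∈ Wm F (j + 1) ∧ z.2 ∈ Wm F (j + 1) then 1 else 0) := by positivity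
          linarith
        have := hge j hj h4
        linarith
      · have h3 : ¬ (z.1 ∈ S (τ (j + 1)) ↔ z.2 ∈ S (τ (j + 1))) := by
          have e1 := (hmem z.1 (j + 1)).1 (mem_sdiff.1 h1).1
          have e2 := (hmem z.2 (j + 1)).1 (mem_sdiff.1 h2).1
          tauto
        have h4 : 1 ≤ tj (S (τ (j + 1))) (Wm F (j + 1)) (l j) z := by
          unfold tj
          rw [if_pos (show ¬ (z.1 ∈ S (τ (j + 1)) ↔ z.2 ∈ S (τ (j + 1))) ∧
            z.1 ∈ Wm F (j + 1) ∧ z.2 ∈ Wm F (j + 1) from ⟨h3, h1, h2⟩)]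
          have e1 : (0 : ℝ) ≤ (if z ∈ un (l j) (S (τ (j + 1)) \ Wm F (j + 1)) then 1 else 0) := by
            positivity
          have e2 : (0 : ℝ) ≤ (if z ∈ un (l j) ((S (τ (j + 1)))ᶜ \ Wm F (j + 1)) then 1 else 0) := by
            positivity
          have e3 : (0 : ℝ) ≤ (if (z.1 ∈ S (τ (j + 1)) ↔ z.2 ∈ S (τ (j + 1))) ∧
            (z.1 ∈ Wm F (j + 1) ∨ z.2 ∈ Wm F (j + 1)) then 1 else 0) := by positivity
          linarith
        have := hge j hj h4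
        linarith
      · rw [if_pos (show ¬ (z.1 ∈ S 0 ↔ z.2 ∈ S 0) ∧ z.1 ∈ (Un F r)ᶜ ∧ z.2 ∈ (Un F r)ᶜ from
          ⟨ho, mem_compl.2 h1, mem_compl.2 h2⟩)]
        linarith
  have hpt : ∀ z : P × P, (r : ℝ) ≤ (if ¬ (z.1 ∈ S 0 ↔ z.2 ∈ S 0) then 1 else 0) +
      ∑ j ∈ range r, ((if ¬ (z.1 ∈ S (τ (j + 1)) ↔ z.2 ∈ S (τ (j + 1))) then 1 else 0) +
        ls (l j) z) + φ z := by
    intro z
    have h1 : (r : ℝ) ≤ ∑ j ∈ range r,
        ((if ¬ (z.1 ∈ S (τ (j + 1)) ↔ z.2 ∈ S (τ (j + 1))) then (1 : ℝ) else 0) +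
        ls (l j) z + tj (S (τ (j + 1))) (Wm F (j + 1)) (l j) z) := by
      calc (r : ℝ) = ∑ _j ∈ range r, (1 : ℝ) := by simp
        _ ≤ _ := sum_le_sum fun j _ => tj_ge _ _ _ _
    rw [sum_add_distrib] at h1
    have hd0 : (0 : ℝ) ≤ (if ¬ (z.1 ∈ S 0 ↔ z.2 ∈ S 0) ∧ z.1 ∈ (Un F r)ᶜ ∧ z.2 ∈ (Un F r)ᶜ
        then 1 else 0) := by positivity
    show (r : ℝ) ≤ _ + _ + (_ - _ + _)
    linarith
  -- sums over `E`
  have hE : ∀ C, cut C → (∑ z ∈ E, if ¬ (z.1 ∈ C ↔ z.2 ∈ C) then (1 : ℝ) else 0) ≤ Mb := by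
    intro C hC
    rw [sum_boole]
    exact_mod_cast hM C hC
  have hS0 := hE (S 0) (h.isCut 0 (Nat.zero_le _))
  have hsum : (r : ℝ) * E.card ≤ ((k + 1) * r + 1) * Mb + ∑ z : P × P, φ z := by
    have h1 : (r : ℝ) * E.card = ∑ _z ∈ E, (r : ℝ) := by
      rw [sum_const, nsmul_eq_mul, mul_comm]
    have h2 : ∑ _z ∈ E, (r : ℝ) ≤ ∑ z ∈ E, ((if ¬ (z.1 ∈ S 0 ↔ z.2 ∈ S 0) then (1 : ℝ) else 0) +
      ∑ j ∈ range r, ((if ¬ (z.1 ∈ S (τ (j + 1)) ↔ z.2 ∈ S (τ (j + 1))) then (1 : ℝ) else 0) +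
        ls (l j) z) + φ z) := sum_le_sum fun z _ => hpt z
    rw [sum_add_distrib, sum_add_distrib, sum_comm] at h2
    have h3 : ∑ j ∈ range r, ∑ z ∈ E,
        ((if ¬ (z.1 ∈ S (τ (j + 1)) ↔ z.2 ∈ S (τ (j + 1))) then (1 : ℝ) else 0) + ls (l j) z) ≤
        ∑ _j ∈ range r, ((k + 1) * (Mb : ℝ)) := by
      refine sum_le_sum fun j _ => ?_
      rw [sum_add_distrib]
      have h4 := hE _ (h.isCut (τ (j + 1)) (hT _))
      have h5 := ls_sum E (Mb : ℝ) (l j) fun C hC => hE C (hl2 j C hC)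
      rw [hl1 j] at h5
      linarith
    rw [sum_const, card_range, nsmul_eq_mul] at h3
    have h4 : ∑ z ∈ E, φ z ≤ ∑ z : P × P, φ z :=
      sum_le_sum_of_subset_of_nonneg (subset_univ _) fun z _ _ => hφ z
    rw [h1]
    have e : ((k : ℝ) + 1) * r + 1 = r * (k + 1) + 1 := by ring
    nlinarith
  -- the sum of `φ`
  have hcard0 := h.card 0 (Nat.zero_le _)
  have hp0 : (2 : ℝ) * (S 0).card = Fintype.card P := by exact_mod_cast hcard0
  have hp0' : ((S 0)ᶜ.card : ℝ) = Fintype.card P / 2 := by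
    have h3 := card_add_card_compl (S 0)
    have h4 : ((S 0).card : ℝ) + (S 0)ᶜ.card = Fintype.card P := by exact_mod_cast h3
    linarith
  obtain ⟨p, hp⟩ : ∃ p : ℝ, p = ((Fintype.card P : ℕ) : ℝ) := ⟨_, rfl⟩
  obtain ⟨ν, hν⟩ : ∃ ν : ℝ, ν = p / ((k + 1) * r + 1) := ⟨_, rfl⟩
  have hp1 : 0 ≤ p := by rw [hp]; exact Nat.cast_nonneg _
  have hk0 : (0 : ℝ) ≤ k := Nat.cast_nonneg _
  have hr0 : (0 : ℝ) ≤ r := Nat.cast_nonneg _
  have hLr : (0 : ℝ) < (k + 1) * r + 1 := by positivity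
  have hpν : p = ((k + 1) * r + 1) * ν := by
    rw [hν]
    field_simp
  have hLc : (L : ℝ) = (k + 1) * r + 1 := by
    rw [hL]
    push_cast
    ring
  have hν0 : 0 ≤ ν := by rw [hν]; positivity
  have hμν : (μ : ℝ) ≤ ν := by
    have h1 : (L : ℝ) * μ ≤ Fintype.card P := by exact_mod_cast hμL
    rw [hν, le_div_iff₀ hLr, hp]
    rw [hLc] at h1
    linarith
  have hνμ : ν ≤ μ + 1 := by
    have h1 : (Fintype.card P : ℝ) ≤ (L : ℝ) * (μ + 1) := by exact_mod_cast hμL2.le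
    rw [hν, div_le_iff₀ hLr, hp]
    rw [hLc] at h1
    linarith
  have hνp : r * ν ≤ p := by
    rw [hpν]
    nlinarith
  have hνp1 : ν ≤ p := by
    rw [hpν]
    have : 0 ≤ (k + 1) * (r : ℝ) * ν := by positivity
    linarith
  have hsumφ : ∑ z : P × P, φ z ≤ r ^ 2 * p ^ 2 / (2 * ((k + 1) * r + 1)) + 3 * r * p + 4 * k * r := by
    have e1 : ∑ z : P × P, φ z = ∑ j ∈ range r, ∑ z : P × P, tj (S (τ (j + 1))) (Wm F (j + 1)) (l j) z -
        (univ.filter fun z : P × P => ¬ (z.1 ∈ S 0 ↔ z.2 ∈ S 0)).card +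
        (univ.filter fun z : P × P => ¬ (z.1 ∈ S 0 ↔ z.2 ∈ S 0) ∧ z.1 ∈ (Un F r)ᶜ ∧
          z.2 ∈ (Un F r)ᶜ).card := by
      show ∑ z : P × P, (_ - _ + _) = _
      rw [sum_add_distrib, sum_sub_distrib, sum_comm, sum_boole, sum_boole]
    have e2 : (univ.filter fun z : P × P => ¬ (z.1 ∈ S 0 ↔ z.2 ∈ S 0)).card =
        2 * ((S 0).card * (S 0)ᶜ.card) := by
      have := opp_card (S 0) (univ : Finset P)
      simp only [mem_univ, and_true, inter_univ] at this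
      exact this
    have e3 : ((univ.filter fun z : P × P => ¬ (z.1 ∈ S 0 ↔ z.2 ∈ S 0)).card : ℝ) = p ^ 2 / 2 := by
      rw [e2]
      push_cast
      rw [hp0', hp]
      have : ((S 0).card : ℝ) = Fintype.card P / 2 := by linarith
      rw [this]
      ring
    have e4 : ((univ.filter fun z : P × P => ¬ (z.1 ∈ S 0 ↔ z.2 ∈ S 0) ∧ z.1 ∈ (Un F r)ᶜ ∧
          z.2 ∈ (Un F r)ᶜ).card : ℝ) ≤ ((Un F r)ᶜ.card : ℝ) ^ 2 / 2 := by
      rw [opp_card]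
      push_cast
      have e7 : ((S 0 ∩ (Un F r)ᶜ).card : ℝ) + ((S 0)ᶜ ∩ (Un F r)ᶜ).card = (Un F r)ᶜ.card := by
        have h3 : ((Un F r)ᶜ ∩ S 0).card + ((Un F r)ᶜ \ S 0).card = (Un F r)ᶜ.card :=
          card_inter_add_card_sdiff _ _
        have h4 : (S 0)ᶜ ∩ (Un F r)ᶜ = (Un F r)ᶜ \ S 0 := by
          ext x
          simp only [mem_inter, mem_compl, mem_sdiff]
          exact and_comm
        rw [h4, inter_comm (S 0)]
        exact_mod_cast h3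
      rw [← e7]
      nlinarith [sq_nonneg (((S 0 ∩ (Un F r)ᶜ).card : ℝ) - ((S 0)ᶜ ∩ (Un F r)ᶜ).card)]
    have e5 : ((Un F r)ᶜ.card : ℝ) ^ 2 / 2 ≤ (p - r * ν) ^ 2 / 2 + r * p := by
      have h1 : ((Un F r).card : ℝ) + (Un F r)ᶜ.card = Fintype.card P := by
        exact_mod_cast card_add_card_compl (Un F r)
      have h2 : ((r * μ : ℕ) : ℝ) ≤ (Un F r).card := by exact_mod_cast (hU r le_rfl).1
      push_cast at h2
      have h3 : (0 : ℝ) ≤ (Un F r).card := Nat.cast_nonneg _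
      have h4 : (0 : ℝ) ≤ (Un F r)ᶜ.card := Nat.cast_nonneg _
      refine ar_err0 hr0 h4 (by rw [hp]; linarith) (by linarith) (by
        have : 0 ≤ (r : ℝ) * ν := by positivity
        linarith) ?_
      rw [hp]
      have h5 : (r : ℝ) * ν ≤ r * (μ + 1) := mul_le_mul_of_nonneg_left hνμ hr0
      linarith
    have e6 : ∀ j ∈ range r, ∑ z : P × P, tj (S (τ (j + 1))) (Wm F (j + 1)) (l j) z ≤
        p ^ 2 / 2 - k / (k + 1) * (p - ν) ^ 2 / 2 + ν ^ 2 / 2 + 2 * p + 4 * k := by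
      intro j hj
      rw [mem_range] at hj
      have h1 := tj_sum (k := k) (h.card (τ (j + 1)) (hT _)) (hl3 j) (hl4 j)
      rw [← hp] at h1
      have hκ0 : (0 : ℝ) ≤ (k : ℝ) / (k + 1) := by positivity
      have hκ1 : (k : ℝ) / (k + 1) ≤ 1 := by
        rw [div_le_one (by positivity)]
        linarith
      have h2 : ((Wm F (j + 1)).card : ℝ) + (Un F j).card = (Un F (j + 1)).card := by
        exact_mod_cast Wm_card F j
      have h3 : ((j * μ : ℕ) : ℝ) ≤ (Un F j).card := by exact_mod_cast (hU j (by omega)).1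
      have h4 : ((Un F (j + 1)).card : ℝ) ≤ (((j + 1) * μ + 1 : ℕ) : ℝ) := by
        exact_mod_cast (hU (j + 1) (by omega)).2
      push_cast at h3 h4
      have h5 : (0 : ℝ) ≤ (Wm F (j + 1)).card := Nat.cast_nonneg _
      have h6 : ((Wm F (j + 1)).card : ℝ) ≤ p := by
        rw [hp]
        exact_mod_cast card_le_univ _
      have h7 := ar_err hκ0 hκ1 h5 h6 hν0 hνp1 (by linarith)
      have h8 : (k : ℝ) / (k + 1) * (p - ((Wm F (j + 1)).card : ℝ)) ^ 2 / 2 =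
        k / (k + 1) * (p - ((Wm F (j + 1)).card : ℝ)) ^ 2 / 2 := rfl
      linarith
    have e7 : ∑ j ∈ range r, ∑ z : P × P, tj (S (τ (j + 1))) (Wm F (j + 1)) (l j) z ≤
        r * (p ^ 2 / 2 - k / (k + 1) * (p - ν) ^ 2 / 2 + ν ^ 2 / 2 + 2 * p + 4 * k) := by
      have := sum_le_sum e6
      rwa [sum_const, card_range, nsmul_eq_mul] at this
    have e8 := ar_main hk0 hr0 hpν
    rw [e1, e3]
    have e9 : (r : ℝ) * (p ^ 2 / 2 - k / (k + 1) * (p - ν) ^ 2 / 2 + ν ^ 2 / 2 + 2 * p + 4 * k) =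
        r * (p ^ 2 / 2 - k / (k + 1) * (p - ν) ^ 2 / 2 + ν ^ 2 / 2) + 2 * r * p + 4 * k * r := by ring
    rw [e9] at e7
    linarith
  rw [← hp]
  linarith

end Pool.Agent.H70.EW
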