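import Pool.Agent.H70.EW.Geo
import Pool.Agent.H70.EW.Bsp

/-!
# The count for `k r + 1` lines (MP_737bdd_co, windows `r / (k r + 1)`)
-/

set_option autoImplicit false
set_option linter.unusedSectionVars false

namespace Pool.Agent.H70.EW

open Finset
open scoped Classical

variable {P : Type} [Fintype P] [DecidableEq P]

/-- discrete intermediate values with steps 2 -/
theorem ivt2 (f : ℕ → ℕ) (b : ℕ) : ∀ T : ℕ, (∀ t < T, f (t + 1) ≤ f t + 2) → f 0 ≤ b + 1 →
    b ≤ f T → ∃ t ≤ T, b ≤ f t ∧ f t ≤ b + 1 := by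
  intro T
  induction T with
  | zero =>
    intro _ h1 h2
    exact ⟨0, le_rfl, h2, h1⟩
  | succ T ih =>
    intro hs h1 h2
    by_cases h3 : b ≤ f T
    · obtain ⟨t, ht, h4⟩ := ih (fun t ht => hs t (by omega)) h1 h3
      exact ⟨t, by omega, h4⟩
    · have h4 := hs T (by omega)
      exact ⟨T + 1, le_rfl, h2, by omega⟩

/-- the swept sets -/
def Fl (S : ℕ → Finset P) (τ : ℕ → ℕ) (i : ℕ) : Finset P := symmDiff (S (τ i)) (S 0)

/-- the union of the first swept sets -/
def Un (F : ℕ → Finset P) (j : ℕ) : Finset P := (range (j + 1)).biUnion F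

/-- the points which are swept at `j` for the first time -/
def Wm (F : ℕ → Finset P) (j : ℕ) : Finset P := F j \ (range j).biUnion F

theorem Un_succ (F : ℕ → Finset P) (j : ℕ) : Un F (j + 1) = F (j + 1) ∪ Un F j := by
  unfold Un
  rw [range_add_one (n := j + 1), biUnion_insert]

theorem Wm_card (F : ℕ → Finset P) (j : ℕ) :
    (Wm F (j + 1)).card + (Un F j).card = (Un F (j + 1)).card := by
  rw [Un_succ]
  unfold Wm Un
  rw [card_sdiff_add_card]

theorem symmDiff_step (A B C : Finset P) : symmDiff B C ⊆ symmDiff A C ∪ symmDiff A B := by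
  intro x hx
  simp only [mem_symmDiff, mem_union] at hx ⊢
  tauto

theorem pick {T : ℕ} {S : ℕ → Finset P} {cut : Finset P → Prop} (h : Seq T S cut) (μ : ℕ) :
    ∀ r : ℕ, r * μ ≤ Fintype.card P → ∃ τ : ℕ → ℕ, τ 0 = 0 ∧ (∀ j, τ j ≤ T) ∧ ∀ j ≤ r,
      j * μ ≤ (Un (Fl S τ) j).card ∧ (Un (Fl S τ) j).card ≤ j * μ + 1 := by
  intro r
  induction r with
  | zero =>
    intro _
    refine ⟨fun _ => 0, rfl, fun _ => Nat.zero_le _, fun j hj => ?_⟩
    have h0 : j = 0 := by omega
    subst h0
    have e : Un (Fl S fun _ => 0) 0 = ∅ := by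
      unfold Un Fl
      simp
    rw [e]
    simp
  | succ r ih =>
    intro hr
    have e0 : (r + 1) * μ = r * μ + μ := by ring
    obtain ⟨τ, h0, hT, hj⟩ := ih (by omega)
    have s1 : ∀ t < T, (Un (Fl S τ) r ∪ symmDiff (S (t + 1)) (S 0)).card ≤
        (Un (Fl S τ) r ∪ symmDiff (S t) (S 0)).card + 2 := by
      intro t ht
      have h1 : Un (Fl S τ) r ∪ symmDiff (S (t + 1)) (S 0) ⊆
          (Un (Fl S τ) r ∪ symmDiff (S t) (S 0)) ∪ symmDiff (S t) (S (t + 1)) := by
        have h2 := symmDiff_step (S t) (S (t + 1)) (S 0)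
        intro x hx
        rw [mem_union] at hx
        rw [mem_union, mem_union]
        rcases hx with hx | hx
        · exact Or.inl (Or.inl hx)
        · rcases mem_union.1 (h2 hx) with h3 | h3
          · exact Or.inl (Or.inr h3)
          · exact Or.inr h3
      have h2 := (card_le_card h1).trans (card_union_le _ _)
      have h3 := h.step t ht
      omega
    have s2 : (Un (Fl S τ) r ∪ symmDiff (S 0) (S 0)).card ≤ (r + 1) * μ + 1 := by
      have h1 := (hj r le_rfl).2
      rw [symmDiff_self]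
      have e2 : Un (Fl S τ) r ∪ (⊥ : Finset P) = Un (Fl S τ) r := by simp
      rw [e2]
      omega
    have s3 : (r + 1) * μ ≤ (Un (Fl S τ) r ∪ symmDiff (S T) (S 0)).card := by
      have e2 : Un (Fl S τ) r ∪ symmDiff (S T) (S 0) = univ := by
        rw [h.last]
        ext x
        simp only [mem_union, mem_symmDiff, mem_compl, mem_univ, iff_true]
        tauto
      rw [e2, card_univ]
      exact hr
    obtain ⟨t, ht, h1, h2⟩ := ivt2
      (fun t => (Un (Fl S τ) r ∪ symmDiff (S t) (S 0)).card) ((r + 1) * μ) T s1 s2 s3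
    refine ⟨Function.update τ (r + 1) t, ?_, ?_, ?_⟩
    · rw [Function.update_of_ne (by omega)]
      exact h0
    · intro j
      by_cases hjr : j = r + 1
      · subst hjr
        rw [Function.update_self]
        exact ht
      · rw [Function.update_of_ne hjr]
        exact hT j
    · have e1 : ∀ j ≤ r, Un (Fl S (Function.update τ (r + 1) t)) j = Un (Fl S τ) j := by
        intro j hj
        unfold Un
        apply biUnion_congr rfl
        intro i hi
        rw [mem_range] at hi
        unfold Fl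
        rw [Function.update_of_ne (by omega)]
      intro j hjr
      rcases Nat.lt_or_ge r j with h3 | h3
      · have h4 : j = r + 1 := by omega
        subst h4
        rw [Un_succ, e1 r le_rfl]
        have e2 : Fl S (Function.update τ (r + 1) t) (r + 1) = symmDiff (S t) (S 0) := by
          unfold Fl
          rw [Function.update_self]
        rw [e2, union_comm]
        exact ⟨h1, h2⟩
      · rw [e1 j h3]
        exact hj j h3

/-- the pair property of the marks -/
theorem marks (F : ℕ → Finset P) (hF : F 0 = ∅) (r : ℕ) (u v : P) :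
    (∃ j < r, (u ∈ Wm F (j + 1) ∨ v ∈ Wm F (j + 1)) ∧ (u ∈ F (j + 1) ↔ v ∉ F (j + 1))) ∨
    (∃ j < r, (u ∈ Wm F (j + 1) ∧ v ∈ Wm F (j + 1))) ∨ (u ∉ Un F r ∧ v ∉ Un F r) := by
  by_cases h : ∃ i, i ≤ r ∧ (u ∈ F i ∨ v ∈ F i)
  · obtain ⟨i, h1, h2⟩ : ∃ i, (i ≤ r ∧ (u ∈ F i ∨ v ∈ F i)) ∧
        ∀ j < i, ¬ (j ≤ r ∧ (u ∈ F j ∨ v ∈ F j)) :=
      ⟨Nat.find h, Nat.find_spec h, fun j hj => Nat.find_min h hj⟩
    rcases i with _ | j
    · rw [hF] at h1
      simp at h1
    have hW : ∀ w, (w = u ∨ w = v) → w ∈ F (j + 1) → w ∈ Wm F (j + 1) := by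
      intro w hw hwi
      unfold Wm
      rw [mem_sdiff, mem_biUnion]
      refine ⟨hwi, ?_⟩
      rintro ⟨i', hi', hwi'⟩
      rw [mem_range] at hi'
      refine h2 i' hi' ⟨by omega, ?_⟩
      rcases hw with rfl | rfl
      · exact Or.inl hwi'
      · exact Or.inr hwi'
    have hjr : j < r := by omega
    by_cases hu : u ∈ F (j + 1)
    · by_cases hv : v ∈ F (j + 1)
      · exact Or.inr (Or.inl ⟨j, hjr, hW u (Or.inl rfl) hu, hW v (Or.inr rfl) hv⟩)
      · exact Or.inl ⟨j, hjr, Or.inl (hW u (Or.inl rfl) hu), iff_of_true hu hv⟩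
    · have hv : v ∈ F (j + 1) := h1.2.resolve_left hu
      exact Or.inl ⟨j, hjr, Or.inr (hW v (Or.inr rfl) hv), iff_of_false hu (fun h' => h' hv)⟩
  · push Not at h
    refine Or.inr (Or.inr ⟨?_, ?_⟩)
    · unfold Un
      rw [mem_biUnion]
      rintro ⟨i, hi, hu⟩
      rw [mem_range] at hi
      exact (h i (by omega)).1 hu
    · unfold Un
      rw [mem_biUnion]
      rintro ⟨i, hi, hv⟩
      rw [mem_range] at hi
      exact (h i (by omega)).2 hv

end Pool.Agent.H70.EW
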