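import Pool.Agent.H70.EW.Cn3
import Pool.Agent.H56.EH.FIN

/-!
# The windows `r / (k r + 1)` of the ELSS conjecture and the factor `120 / 121` (MP_737bdd_co)
-/

set_option autoImplicit false

namespace Pool.Agent.H70.EW

open Finset Pool.Agent.H68 Pool.Agent.H93.EL Pool.Agent.H56.EH
open scoped Classical

/-- The bound for one geometric graph: with `L = (k + 1) r + 1`, `2 r m ≤ 2 L M + r² n² / (2 L)`. -/
theorem bound1 (G : GeomHyp 2 2) {M : ℕ} (hM : Bd G M) (k r : ℕ) :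
    (r : ℝ) * (2 * G.E.card) ≤
      ((k + 1) * r + 1) * (2 * M) + r ^ 2 * (G.V.card : ℝ) ^ 2 / (2 * ((k + 1) * r + 1)) := by
  obtain ⟨ε, hF⟩ := exists_frame G
  refine limK (c1 := 3 * r * (G.V.card : ℝ)) (c2 := 4 * k * r)
    (by positivity) (by positivity) fun K hK1 hK => ?_
  obtain ⟨T, S, hS⟩ := geo hF hK hK1
  have h := cnt hS
    (univ.filter fun z : (G.V × Fin K) × (G.V × Fin K) =>
      ((z.1.1 : Pt 2), (z.2.1 : Pt 2)) ∈ ord G) (2 * M * K ^ 2) ?_ k r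
  · rw [card_E] at h
    rw [Fintype.card_prod, Fintype.card_fin, Fintype.card_coe] at h
    push_cast at h ⊢
    have e1 : (r : ℝ) ^ 2 * ((G.V.card : ℝ) * K) ^ 2 / (2 * ((k + 1) * r + 1)) =
        r ^ 2 * (G.V.card : ℝ) ^ 2 / (2 * ((k + 1) * r + 1)) * (K : ℝ) ^ 2 := by ring
    rw [e1] at h
    linarith
  · intro C hC
    rw [filter_filter]
    have h1 := Pool.Agent.H70.EH.cutw G hM C hC
    refine le_trans (le_of_eq ?_) h1
    congr 1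
    ext z
    simp only [mem_filter]

/-- **The windows** `r / (k r + 1)`, `k ≥ 1` -/
theorem window {n m : ℕ} (hmn : m ≤ n.choose 2) (k r : ℕ) :
    (r : ℝ) / ((k + 1) * r + 1) * m - ((r : ℝ) / ((k + 1) * r + 1)) ^ 2 * (n : ℝ) ^ 2 / 4 ≤
      (fval 2 2 1 m n : ℝ) := by
  refine fv_of hmn _ fun G hV hE M hM => ?_
  have h := bound1 G hM k r
  rw [hV, hE] at h
  have hL : (0 : ℝ) < (k + 1) * r + 1 := by positivity
  have e : (r : ℝ) / ((k + 1) * r + 1) * m - ((r : ℝ) / ((k + 1) * r + 1)) ^ 2 * (n : ℝ) ^ 2 / 4 =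
      (r * (2 * m) - r ^ 2 * (n : ℝ) ^ 2 / (2 * ((k + 1) * r + 1))) / (2 * ((k + 1) * r + 1)) := by
    field_simp
    ring
  rw [e, div_le_iff₀ (by positivity)]
  nlinarith

/-- the tangent at `x` is good near `x` -/
theorem tangent {n m x δ f : ℝ} (hn : 0 < n) (hm : 0 ≤ m)
    (h1 : (1 - δ) * (2 * m) ≤ x * n ^ 2) (h2 : x * n ^ 2 ≤ (1 + δ) * (2 * m))
    (hf : x * m - x ^ 2 * n ^ 2 / 4 ≤ f) : (1 - δ ^ 2) * (m ^ 2 / n ^ 2) ≤ f := by
  refine le_trans ?_ hf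
  have hn2 : 0 < n ^ 2 := by positivity
  rw [← mul_div_assoc, div_le_iff₀ hn2]
  nlinarith [mul_nonneg (sub_nonneg.2 h1) (sub_nonneg.2 h2)]

/-- the tangents at `2 / s` -/
theorem window2 {n m : ℕ} (hmn : m ≤ n.choose 2) {s : ℕ} (hs : 3 ≤ s) :
    (2 : ℝ) / s * m - ((2 : ℝ) / s) ^ 2 * (n : ℝ) ^ 2 / 4 ≤ (fval 2 2 1 m n : ℝ) := by
  rcases Nat.even_or_odd' s with ⟨t, ht | ht⟩
  · have h := window hmn (t - 2) 1
    have e : (((1 : ℕ) : ℝ) / ((((t - 2 : ℕ) : ℝ) + 1) * ((1 : ℕ) : ℝ) + 1)) = 2 / s := by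
      have h2 : 2 ≤ t := by omega
      have h3 : (t : ℝ) ≠ 0 := by
        have : (0 : ℝ) < t := by exact_mod_cast (by omega : 0 < t)
        exact this.ne'
      rw [Nat.cast_sub h2, ht]
      push_cast
      rw [show ((t : ℝ) - 2 + 1) * 1 + 1 = t by ring]
      field_simp
    rw [e] at h
    exact h
  · have h := window hmn (t - 1) 2
    have e : (((2 : ℕ) : ℝ) / ((((t - 1 : ℕ) : ℝ) + 1) * ((2 : ℕ) : ℝ) + 1)) = 2 / s := by
      have h2 : 1 ≤ t := by omega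
      rw [Nat.cast_sub h2, ht]
      push_cast
      congr 1
      ring
    rw [e] at h
    exact h

/-- **The factor `120 / 121` for all numbers of edges** -/
theorem factor {n m : ℕ} (hmn : m ≤ n.choose 2) :
    120 / 121 * ((m : ℝ) ^ 2 / (n : ℝ) ^ 2) ≤ (fval 2 2 1 m n : ℝ) := by
  have hT : (0 : ℝ) ≤ (m : ℝ) ^ 2 / (n : ℝ) ^ 2 := by positivity
  rcases Nat.eq_zero_or_pos n with h0 | hn
  · subst h0
    simp
  rcases Nat.eq_zero_or_pos m with h0 | hm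
  · subst h0
    simp
  have hn' : (0 : ℝ) < n := by exact_mod_cast hn
  have hm' : (0 : ℝ) < m := by exact_mod_cast hm
  have hδ : (1 - (1 / 11 : ℝ) ^ 2) = 120 / 121 := by norm_num
  by_cases h1 : n ^ 2 ≤ 4 * m
  · have := half hmn h1
    linarith
  have h1' : 4 * (m : ℝ) < (n : ℝ) ^ 2 := by exact_mod_cast not_le.1 h1
  by_cases h2 : 11 * n ^ 2 ≤ 48 * m
  · have h2' : 11 * (n : ℝ) ^ 2 ≤ 48 * m := by exact_mod_cast h2
    have h3 := window hmn 0 1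
    rw [← hδ]
    refine tangent hn' hm'.le (x := 1 / 2) ?_ ?_ ?_
    · linarith
    · linarith
    · norm_num at h3 ⊢
      exact h3
  have h2' : 48 * (m : ℝ) < 11 * (n : ℝ) ^ 2 := by exact_mod_cast not_le.1 h2
  by_cases h3 : 11 * n ^ 2 ≤ 56 * m
  · have h3' : 11 * (n : ℝ) ^ 2 ≤ 56 * m := by exact_mod_cast h3
    have h4 := window hmn 1 3
    rw [← hδ]
    refine tangent hn' hm'.le (x := 3 / 7) ?_ ?_ ?_
    · linarith
    · linarith
    · norm_num at h4 ⊢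
      exact h4
  have h3' : 56 * (m : ℝ) < 11 * (n : ℝ) ^ 2 := by exact_mod_cast not_le.1 h3
  by_cases h4 : 11 * n ^ 2 ≤ 60 * m
  · have h4' : 11 * (n : ℝ) ^ 2 ≤ 60 * m := by exact_mod_cast h4
    have h5 := window2 hmn (s := 5) (by norm_num)
    rw [← hδ]
    refine tangent hn' hm'.le (x := 2 / 5) ?_ ?_ ?_
    · linarith
    · linarith
    · norm_num at h5 ⊢
      exact h5
  have h4' : 60 * (m : ℝ) < 11 * (n : ℝ) ^ 2 := by exact_mod_cast not_le.1 h4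
  obtain ⟨q, hq⟩ : ∃ q : ℝ, q = 11 * (n : ℝ) ^ 2 / (12 * m) := ⟨_, rfl⟩
  have hqm : q * (12 * m) = 11 * (n : ℝ) ^ 2 := by
    rw [hq]
    field_simp
  have hq5 : 5 < q := by
    rw [hq, lt_div_iff₀ (by positivity)]
    linarith
  have hs1 : q ≤ (⌈q⌉₊ : ℝ) := Nat.le_ceil q
  have hs2 : (⌈q⌉₊ : ℝ) < q + 1 := Nat.ceil_lt_add_one (by linarith)
  obtain ⟨s, hs⟩ : ∃ s : ℕ, s = ⌈q⌉₊ := ⟨_, rfl⟩
  rw [← hs] at hs1 hs2
  have hs3 : 3 ≤ s := by
    have : (3 : ℝ) ≤ (s : ℝ) := by linarith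
    exact_mod_cast this
  have hs0 : (0 : ℝ) < s := by linarith
  have h5 := window2 hmn hs3
  rw [← hδ]
  refine tangent hn' hm'.le (x := 2 / s) ?_ ?_ h5
  · rw [div_mul_eq_mul_div, le_div_iff₀ hs0]
    have h6 : (s : ℝ) ≤ 6 / 5 * q := by linarith
    nlinarith
  · rw [div_mul_eq_mul_div, div_le_iff₀ hs0]
    nlinarith

/-- **A factor which tends to `1` for sparse graphs** -/
theorem sparse {n m : ℕ} (hmn : m ≤ n.choose 2) (h : 4 * m ≤ n ^ 2) :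
    (1 - ((m : ℝ) / (2 * (n : ℝ) ^ 2 - m)) ^ 2) * ((m : ℝ) ^ 2 / (n : ℝ) ^ 2) ≤
      (fval 2 2 1 m n : ℝ) := by
  rcases Nat.eq_zero_or_pos n with h0 | hn
  · subst h0
    simp
  rcases Nat.eq_zero_or_pos m with h0 | hm
  · subst h0
    simp
  have hn' : (0 : ℝ) < n := by exact_mod_cast hn
  have hm' : (0 : ℝ) < m := by exact_mod_cast hm
  have h' : 4 * (m : ℝ) ≤ (n : ℝ) ^ 2 := by exact_mod_cast h
  obtain ⟨q, hq⟩ : ∃ q : ℝ, q = (n : ℝ) ^ 2 / m + 1 / 2 := ⟨_, rfl⟩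
  have hqm : (q - 1 / 2) * m = (n : ℝ) ^ 2 := by
    rw [hq]
    field_simp
    ring
  have hq4 : 4 ≤ q - 1 / 2 := by
    rw [hq, add_sub_cancel_right, le_div_iff₀ hm']
    linarith
  have hs1 : (⌊q⌋₊ : ℝ) ≤ q := Nat.floor_le (by linarith)
  have hs2 : q < (⌊q⌋₊ : ℝ) + 1 := Nat.lt_floor_add_one q
  obtain ⟨s, hs⟩ : ∃ s : ℕ, s = ⌊q⌋₊ := ⟨_, rfl⟩
  rw [← hs] at hs1 hs2
  have hs3 : 3 ≤ s := by
    have : (3 : ℝ) ≤ (s : ℝ) := by linarith
    exact_mod_cast this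
  have hs0 : (0 : ℝ) < s := by linarith
  have h5 := window2 hmn hs3
  have hd : 0 < 2 * (n : ℝ) ^ 2 - m := by linarith
  have hδs : 1 / 2 ≤ (m : ℝ) / (2 * (n : ℝ) ^ 2 - m) * s := by
    rw [div_mul_eq_mul_div, le_div_iff₀ hd]
    nlinarith
  have hδ0 : 0 ≤ (m : ℝ) / (2 * (n : ℝ) ^ 2 - m) := by positivity
  refine tangent hn' hm'.le (x := 2 / s) ?_ ?_ h5
  · rw [div_mul_eq_mul_div, le_div_iff₀ hs0]
    nlinarith
  · rw [div_mul_eq_mul_div, div_le_iff₀ hs0]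
    nlinarith

end Pool.Agent.H70.EW
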