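import Mathlib

/-!
# Sequences of strict orders which change by disjoint exchanges (MP_737bdd_co, windows `r / (k r + 1)`)
-/

set_option autoImplicit false
set_option linter.unusedSectionVars false

namespace Pool.Agent.H70.EW

open Finset
open scoped Classical

variable {α : Type} [Fintype α] [DecidableEq α]

/-- strict total orders `B t`, `t ≤ T`, which change by disjoint exchanges of pairs -/
structure RSeq (T : ℕ) (B E : ℕ → α → α → Prop) : Prop where
  irr : ∀ t ≤ T, ∀ x, ¬ B t x x
  tr : ∀ t ≤ T, ∀ x y z, B t x y → B t y z → B t x z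
  tot : ∀ t ≤ T, ∀ x y, x ≠ y → B t x y ∨ B t y x
  ch : ∀ t < T, ∀ x y, B t x y → B (t + 1) y x → E t x y
  symm : ∀ t x y, E t x y → E t y x
  uniq : ∀ t x y y', E t x y → E t x y' → y = y'

/-- the number of points of `R` before `x` -/
noncomputable def cb (B : ℕ → α → α → Prop) (R : Finset α) (t : ℕ) (x : α) : ℕ :=
  (R.filter fun y => B t y x).card

/-- the lower part which ends with the `a`-th point of `R` -/
noncomputable def Dl (B : ℕ → α → α → Prop) (R : Finset α) (a t : ℕ) : Finset α :=
  univ.filter fun x => cb B R t x < a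

variable {T : ℕ} {B E : ℕ → α → α → Prop}

theorem cb_le (h : RSeq T B E) (R : Finset α) {t : ℕ} (ht : t ≤ T) {x y : α} (hxy : B t x y) :
    cb B R t x ≤ cb B R t y := by
  apply card_le_card
  intro z hz
  rw [mem_filter] at hz ⊢
  exact ⟨hz.1, h.tr t ht _ _ _ hz.2 hxy⟩

theorem cb_lt (h : RSeq T B E) {R : Finset α} {t : ℕ} (ht : t ≤ T) {x y : α} (hx : x ∈ R)
    (hxy : B t x y) : cb B R t x < cb B R t y := by
  apply card_lt_card
  rw [ssubset_iff_of_subset]
  · exact ⟨x, mem_filter.2 ⟨hx, hxy⟩, fun h' => h.irr t ht x (mem_filter.1 h').2⟩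
  · intro z hz
    rw [mem_filter] at hz ⊢
    exact ⟨hz.1, h.tr t ht _ _ _ hz.2 hxy⟩

theorem cb_inj (h : RSeq T B E) {R : Finset α} {t : ℕ} (ht : t ≤ T) {x y : α} (hx : x ∈ R)
    (hy : y ∈ R) (he : cb B R t x = cb B R t y) : x = y := by
  by_contra hne
  rcases h.tot t ht x y hne with h1 | h1
  · exact absurd he (cb_lt h ht hx h1).ne
  · exact absurd he (cb_lt h ht hy h1).ne'

theorem cb_card (h : RSeq T B E) {R : Finset α} {t : ℕ} (ht : t ≤ T) {x : α} (hx : x ∈ R) :
    cb B R t x < R.card := by
  apply card_lt_card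
  rw [ssubset_iff_of_subset (filter_subset _ _)]
  exact ⟨x, hx, fun h' => h.irr t ht x (mem_filter.1 h').2⟩

theorem Dl_lower (h : RSeq T B E) (R : Finset α) (a : ℕ) {t : ℕ} (ht : t ≤ T) {x y : α}
    (hx : x ∈ Dl B R a t) (hy : y ∉ Dl B R a t) : B t x y := by
  unfold Dl at hx hy
  rw [mem_filter] at hx hy
  have hx' := hx.2
  have hy' : ¬ cb B R t y < a := fun h' => hy ⟨mem_univ _, h'⟩
  have hne : x ≠ y := by
    rintro rfl
    exact hy' hx'
  rcases h.tot t ht x y hne with h1 | h1
  · exact h1
  · exact absurd ((cb_le h R ht h1).trans_lt hx') hy'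

theorem Dl_card (h : RSeq T B E) {R : Finset α} {a : ℕ} (ha : a ≤ R.card) {t : ℕ} (ht : t ≤ T) :
    (Dl B R a t ∩ R).card = a := by
  have himg : R.image (cb B R t) = range R.card := by
    apply eq_of_subset_of_card_le
    · intro x hx
      obtain ⟨y, hy, rfl⟩ := mem_image.1 hx
      exact mem_range.2 (cb_card h ht hy)
    · rw [card_range, card_image_of_injOn fun x hx y hy he => cb_inj h ht hx hy he]
  have h1 : ((R.image (cb B R t)).filter (· < a)).card = (Dl B R a t ∩ R).card := by
    rw [filter_image, card_image_of_injOn]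
    · congr 1
      ext x
      unfold Dl
      simp only [mem_filter, mem_inter, mem_univ, true_and]
      exact and_comm
    · intro x hx y hy he
      exact cb_inj h ht (mem_filter.1 hx).1 (mem_filter.1 hy).1 he
  rw [← h1, himg]
  have h2 : (range R.card).filter (· < a) = range a := by
    ext x
    simp only [mem_filter, mem_range]
    omega
  rw [h2, card_range]

/-- a point of `R'` whose status changes is exchanged with the `a`-th point of `R` -/
theorem change (h : RSeq T B E) {R : Finset α} {a : ℕ} {t : ℕ} (ht : t < T) {x : α} (hx : x ∉ R)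
    (hc : ¬ (cb B R t x < a ↔ cb B R (t + 1) x < a)) : ∃ y ∈ R, E t y x ∧ cb B R t y + 1 = a := by
  have ht' : t + 1 ≤ T := ht
  have hne : ∀ y ∈ R, x ≠ y := by
    rintro y hy rfl
    exact hx hy
  by_cases h1 : cb B R t x < a
  · have h2 : ¬ cb B R (t + 1) x < a := fun h2 => hc ⟨fun _ => h2, fun _ => h1⟩
    push Not at h2
    obtain ⟨y, hy, hyx, hyx'⟩ : ∃ y ∈ R, B (t + 1) y x ∧ ¬ B t y x := by
      by_contra hcon
      push Not at hcon
      have h3 : cb B R (t + 1) x ≤ cb B R t x := by
        apply card_le_card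
        intro y hy
        rw [mem_filter] at hy ⊢
        exact ⟨hy.1, hcon y hy.1 hy.2⟩
      omega
    have hxy : B t x y := (h.tot t ht.le x y (hne y hy)).resolve_right hyx'
    have hE := h.ch t ht x y hxy hyx
    have h4 : cb B R (t + 1) x ≤ cb B R t x + 1 := by
      have h5 : (R.filter fun z => B (t + 1) z x) ⊆ insert y (R.filter fun z => B t z x) := by
        intro z hz
        rw [mem_filter] at hz
        rw [mem_insert, mem_filter]
        by_cases h6 : B t z x
        · exact Or.inr ⟨hz.1, h6⟩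
        · left
          have h7 := (h.tot t ht.le x z (hne z hz.1)).resolve_right h6
          exact h.uniq t x _ _ (h.ch t ht x z h7 hz.2) hE
      exact (card_le_card h5).trans (card_insert_le _ _)
    refine ⟨y, hy, h.symm _ _ _ hE, ?_⟩
    have h5 : cb B R t y = cb B R t x := by
      unfold cb
      congr 1
      ext z
      rw [mem_filter, mem_filter]
      refine and_congr_right fun hz => ⟨fun h6 => ?_, fun h6 => h.tr t ht.le _ _ _ h6 hxy⟩
      by_contra h7
      have h8 := (h.tot t ht.le x z (hne z hz)).resolve_right h7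
      have h9 : ¬ B (t + 1) z x := by
        intro h9
        have h10 := h.uniq t x _ _ (h.ch t ht x z h8 h9) hE
        rw [h10] at h6
        exact h.irr t ht.le _ h6
      have h10 := (h.tot (t + 1) ht' x z (hne z hz)).resolve_right h9
      have h11 := h.tr (t + 1) ht' _ _ _ hyx h10
      have h12 := h.ch t ht z y h6 h11
      exact hne z hz (h.uniq t y _ _ (h.symm _ _ _ hE) (h.symm _ _ _ h12))
    omega
  · have h2 : cb B R (t + 1) x < a := by
      by_contra h2
      exact hc ⟨fun h' => absurd h' h1, fun h' => absurd h' h2⟩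
    push Not at h1
    obtain ⟨y, hy, hyx, hyx'⟩ : ∃ y ∈ R, B t y x ∧ ¬ B (t + 1) y x := by
      by_contra hcon
      push Not at hcon
      have h3 : cb B R t x ≤ cb B R (t + 1) x := by
        apply card_le_card
        intro y hy
        rw [mem_filter] at hy ⊢
        exact ⟨hy.1, hcon y hy.1 hy.2⟩
      omega
    have hxy : B (t + 1) x y := (h.tot (t + 1) ht' x y (hne y hy)).resolve_right hyx'
    have hE := h.ch t ht y x hyx hxy
    have h4 : cb B R t x ≤ cb B R (t + 1) x + 1 := by
      have h5 : (R.filter fun z => B t z x) ⊆ insert y (R.filter fun z => B (t + 1) z x) := by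
        intro z hz
        rw [mem_filter] at hz
        rw [mem_insert, mem_filter]
        by_cases h6 : B (t + 1) z x
        · exact Or.inr ⟨hz.1, h6⟩
        · left
          have h7 := (h.tot (t + 1) ht' x z (hne z hz.1)).resolve_right h6
          exact h.uniq t x _ _ (h.symm _ _ _ (h.ch t ht z x hz.2 h7)) (h.symm _ _ _ hE)
      exact (card_le_card h5).trans (card_insert_le _ _)
    refine ⟨y, hy, hE, ?_⟩
    have h5 : cb B R t x = cb B R t y + 1 := by
      have h6 : (R.filter fun z => B t z x) = insert y (R.filter fun z => B t z y) := by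
        ext z
        rw [mem_insert, mem_filter, mem_filter]
        constructor
        · rintro ⟨hz, hzx⟩
          by_cases hzy : z = y
          · exact Or.inl hzy
          · right
            refine ⟨hz, ?_⟩
            by_contra h7
            have h8 := (h.tot t ht.le z y hzy).resolve_left h7
            have h9 : ¬ B (t + 1) x z := by
              intro h9
              have h10 := h.symm _ _ _ (h.ch t ht z x hzx h9)
              exact hzy (h.uniq t x _ _ h10 (h.symm _ _ _ hE))
            have h10 := (h.tot (t + 1) ht' x z (hne z hz)).resolve_left h9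
            have h11 := h.tr (t + 1) ht' _ _ _ h10 hxy
            have h12 := h.ch t ht y z h8 h11
            exact hne z hz (h.uniq t y _ _ hE h12)
        · rintro (rfl | ⟨hz, hzy⟩)
          · exact ⟨hy, hyx⟩
          · exact ⟨hz, h.tr t ht.le _ _ _ hzy hyx⟩
      unfold cb
      rw [h6, card_insert_of_notMem]
      intro h7
      exact h.irr t ht.le y (mem_filter.1 h7).2
    omega

theorem step (h : RSeq T B E) {R R' : Finset α} (hd : Disjoint R R') {a : ℕ} {t : ℕ} (ht : t < T) :
    (Dl B R a (t + 1) ∩ R').card ≤ (Dl B R a t ∩ R').card + 1 ∧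
      (Dl B R a t ∩ R').card ≤ (Dl B R a (t + 1) ∩ R').card + 1 := by
  have hX : (R'.filter fun x => ¬ (cb B R t x < a ↔ cb B R (t + 1) x < a)).card ≤ 1 := by
    rw [card_le_one]
    intro x hx x' hx'
    rw [mem_filter] at hx hx'
    obtain ⟨y, hy, hE, hc⟩ := change h ht (fun h' => disjoint_left.1 hd h' hx.1) hx.2
    obtain ⟨y', hy', hE', hc'⟩ := change h ht (fun h' => disjoint_left.1 hd h' hx'.1) hx'.2
    have he := cb_inj h ht.le hy hy' (by omega)
    rw [← he] at hE'
    exact h.uniq t y _ _ hE hE'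
  have key : ∀ s s' : ℕ, (s = t ∧ s' = t + 1 ∨ s = t + 1 ∧ s' = t) →
      (Dl B R a s ∩ R').card ≤ (Dl B R a s' ∩ R').card + 1 := by
    intro s s' hs
    have hsub : Dl B R a s ∩ R' ⊆ (Dl B R a s' ∩ R') ∪
        (R'.filter fun x => ¬ (cb B R t x < a ↔ cb B R (t + 1) x < a)) := by
      intro x hx
      unfold Dl at hx ⊢
      simp only [mem_inter, mem_filter, mem_univ, true_and, mem_union] at hx ⊢
      rcases hs with ⟨rfl, rfl⟩ | ⟨rfl, rfl⟩
      · tauto
      · tauto
    have h1 := (card_le_card hsub).trans (card_union_le _ _)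
    omega
  exact ⟨key (t + 1) t (Or.inr ⟨rfl, rfl⟩), key t (t + 1) (Or.inl ⟨rfl, rfl⟩)⟩

/-- discrete intermediate values -/
theorem ivt (f : ℕ → ℕ) {b s : ℕ} : ∀ d : ℕ, (∀ t, s ≤ t → t < s + d → f (t + 1) ≤ f t + 1) →
    f s ≤ b → b ≤ f (s + d) → ∃ t, s ≤ t ∧ t ≤ s + d ∧ f t = b := by
  intro d
  induction d with
  | zero =>
    intro _ h1 h2
    exact ⟨s, le_rfl, le_rfl, le_antisymm h1 h2⟩
  | succ d ih =>
    intro hs h1 h2
    by_cases h3 : b ≤ f (s + d)
    · obtain ⟨t, ht1, ht2, ht3⟩ := ih (fun t h4 h5 => hs t h4 (by omega)) h1 h3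
      exact ⟨t, ht1, by omega, ht3⟩
    · have h4 := hs (s + d) (by omega) (by omega)
      refine ⟨s + (d + 1), by omega, le_rfl, ?_⟩
      have h5 : s + d + 1 = s + (d + 1) := by omega
      rw [h5] at h4
      omega

/-- **Lemma A for orders**: if `R` is before `R'` at time `t1` and after `R'` at time `t2`, some lower
part in between cuts off `a` points of `R` and `b` points of `R'` -/
theorem RSeq.cut (h : RSeq T B E) {R R' : Finset α} (hd : Disjoint R R') {t1 t2 : ℕ} (h12 : t1 ≤ t2)
    (h2 : t2 ≤ T) (hb1 : ∀ x ∈ R, ∀ y ∈ R', B t1 x y) (hb2 : ∀ x ∈ R, ∀ y ∈ R', B t2 y x)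
    {a b : ℕ} (ha1 : 1 ≤ a) (ha : a ≤ R.card) (hb : b ≤ R'.card) :
    ∃ t, t1 ≤ t ∧ t ≤ t2 ∧ ∃ C : Finset α, (∀ x ∈ C, ∀ y, y ∉ C → B t x y) ∧
      (C ∩ R).card = a ∧ (C ∩ R').card = b := by
  obtain ⟨d, rfl⟩ := Nat.exists_eq_add_of_le h12
  have e1 : (Dl B R a t1 ∩ R').card = 0 := by
    rw [card_eq_zero, eq_empty_iff_forall_notMem]
    intro x hx
    unfold Dl at hx
    simp only [mem_inter, mem_filter, mem_univ, true_and] at hx
    have h3 : cb B R t1 x = R.card := by
      unfold cb
      rw [filter_true_of_mem fun y hy => hb1 y hy x hx.2]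
    omega
  have e2 : (Dl B R a (t1 + d) ∩ R').card = R'.card := by
    congr 1
    rw [inter_eq_right]
    intro x hx
    unfold Dl
    rw [mem_filter]
    refine ⟨mem_univ _, ?_⟩
    have h3 : cb B R (t1 + d) x = 0 := by
      unfold cb
      rw [card_eq_zero, filter_eq_empty_iff]
      intro y hy h4
      exact h.irr _ h2 _ (h.tr _ h2 _ _ _ h4 (hb2 y hy x hx))
    omega
  obtain ⟨t, ht1, ht2, ht3⟩ := ivt (fun t => (Dl B R a t ∩ R').card) (b := b) (s := t1) d
    (fun t _ h4 => (step h hd (by omega)).1) (by simp only [e1]; omega) (by simp only [e2]; exact hb)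
  exact ⟨t, ht1, ht2, Dl B R a t, fun x hx y hy => Dl_lower h R a (by omega) hx hy,
    Dl_card h ha (by omega), ht3⟩

end Pool.Agent.H70.EW
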