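import Pool.Agent.H93.EH.Ord
import Pool.Agent.H70.EW.Rel

/-!
# Lemma A for sequences of keys (MP_737bdd_co, windows `r / (k r + 1)`)
-/

set_option autoImplicit false
set_option linter.unusedSectionVars false

namespace Pool.Agent.H70.EW

open Finset Pool.Agent.H93.EH
open scoped Classical

variable {α β : Type} [Fintype α] [DecidableEq α] [LinearOrder β]

/-- a lower part for the key `κ` -/
def Lower (κ : α → β) (C : Finset α) : Prop := ∀ x ∈ C, ∀ y, y ∉ C → κ x < κ y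

/-- `C` or its complement is a lower part at some time -/
def Cu (N : ℕ) (κ : ℕ → α → β) (C : Finset α) : Prop :=
  ∃ t ≤ N, Lower (κ t) C ∨ Lower (κ t) Cᶜ

theorem Cu.compl {N : ℕ} {κ : ℕ → α → β} {C : Finset α} (h : Cu N κ C) : Cu N κ Cᶜ := by
  obtain ⟨t, ht, h | h⟩ := h
  · exact ⟨t, ht, Or.inr (by rwa [compl_compl])⟩
  · exact ⟨t, ht, Or.inl h⟩

/-- the orders over a full turn -/
def Bk (N : ℕ) (κ : ℕ → α → β) (t : ℕ) (x y : α) : Prop :=
  if t ≤ N then κ t x < κ t y else κ (t - N) y < κ (t - N) x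

/-- the exchanges over a full turn -/
def Ek (N : ℕ) (lt0 : α → α → Prop) (θ : α → α → ℕ) (t : ℕ) (x y : α) : Prop :=
  (lt0 x y ∧ θ x y = if t < N then t else t - N) ∨ (lt0 y x ∧ θ y x = if t < N then t else t - N)

/-- the data of `hseq_of_keys` -/
structure Keys (N : ℕ) (κ : ℕ → α → β) (lt0 : α → α → Prop) (θ : α → α → ℕ) : Prop where
  htot : ∀ a b, a ≠ b → lt0 a b ∨ lt0 b a
  h1 : ∀ a b, lt0 a b → ∀ t ≤ N, t ≤ θ a b → κ t a < κ t b
  h2 : ∀ a b, lt0 a b → ∀ t ≤ N, θ a b < t → κ t b < κ t a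
  h3 : ∀ a b, lt0 a b → θ a b < N
  huniq : ∀ a b b' t, (lt0 a b ∧ θ a b = t ∨ lt0 b a ∧ θ b a = t) →
      (lt0 a b' ∧ θ a b' = t ∨ lt0 b' a ∧ θ b' a = t) → b = b'

variable {N : ℕ} {κ : ℕ → α → β} {lt0 : α → α → Prop} {θ : α → α → ℕ}

theorem Keys.inj (h : Keys N κ lt0 θ) {t : ℕ} (ht : t ≤ N) : Function.Injective (κ t) := by
  intro a b hab
  by_contra hne
  rcases h.htot a b hne with h' | h'
  · rcases le_or_gt t (θ a b) with h'' | h''
    · exact absurd hab (h.h1 a b h' t ht h'').ne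
    · exact absurd hab (h.h2 a b h' t ht h'').ne'
  · rcases le_or_gt t (θ b a) with h'' | h''
    · exact absurd hab (h.h1 b a h' t ht h'').ne'
    · exact absurd hab (h.h2 b a h' t ht h'').ne

theorem Keys.chg (h : Keys N κ lt0 θ) {t : ℕ} (ht : t < N) {a b : α} (hab : κ t a < κ t b)
    (hba : κ (t + 1) b < κ (t + 1) a) : lt0 a b ∧ θ a b = t ∨ lt0 b a ∧ θ b a = t := by
  have hne : a ≠ b := by
    rintro rfl
    exact absurd hab (lt_irrefl _)
  rcases h.htot a b hne with h0 | h0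
  · left
    refine ⟨h0, ?_⟩
    by_contra hθ
    rcases lt_or_gt_of_ne hθ with h' | h'
    · exact absurd hab (h.h2 a b h0 t ht.le h').asymm
    · exact absurd hba (h.h1 a b h0 (t + 1) ht (by omega)).asymm
  · right
    refine ⟨h0, ?_⟩
    by_contra hθ
    rcases lt_or_gt_of_ne hθ with h' | h'
    · exact absurd hba (h.h2 b a h0 (t + 1) ht (by omega)).asymm
    · exact absurd hab (h.h1 b a h0 t ht.le (by omega)).asymm

theorem Keys.last (h : Keys N κ lt0 θ) (x y : α) : κ N x < κ N y ↔ κ 0 y < κ 0 x := by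
  by_cases hne : x = y
  · subst hne
    simp
  rcases h.htot x y hne with h0 | h0
  · exact iff_of_false (h.h2 x y h0 N le_rfl (h.h3 x y h0)).asymm
      (h.h1 x y h0 0 (Nat.zero_le _) (Nat.zero_le _)).asymm
  · exact iff_of_true (h.h2 y x h0 N le_rfl (h.h3 y x h0))
      (h.h1 y x h0 0 (Nat.zero_le _) (Nat.zero_le _))

theorem Bk_le {t : ℕ} (ht : t ≤ N) {x y : α} : Bk N κ t x y ↔ κ t x < κ t y := by
  unfold Bk
  rw [if_pos ht]

theorem Keys.Bk_ge (h : Keys N κ lt0 θ) (s : ℕ) {x y : α} :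
    Bk N κ (N + s) x y ↔ κ s y < κ s x := by
  rcases Nat.eq_zero_or_pos s with hs | hs
  · subst hs
    rw [add_zero, Bk_le le_rfl]
    exact h.last x y
  · unfold Bk
    rw [if_neg (by omega), Nat.add_sub_cancel_left]

theorem Keys.rseq (h : Keys N κ lt0 θ) : RSeq (2 * N) (Bk N κ) (Ek N lt0 θ) := by
  have hcase : ∀ t ≤ 2 * N, t ≤ N ∨ ∃ s ≤ N, t = N + s := by
    intro t ht
    rcases le_or_gt t N with h' | h'
    · exact Or.inl h'
    · exact Or.inr ⟨t - N, by omega, by omega⟩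
  refine ⟨?_, ?_, ?_, ?_, ?_, ?_⟩
  · intro t ht x
    rcases hcase t ht with h' | ⟨s, hs, rfl⟩
    · rw [Bk_le h']
      exact lt_irrefl _
    · rw [h.Bk_ge]
      exact lt_irrefl _
  · intro t ht x y z
    rcases hcase t ht with h' | ⟨s, hs, rfl⟩
    · rw [Bk_le h', Bk_le h', Bk_le h']
      exact fun a b => a.trans b
    · rw [h.Bk_ge, h.Bk_ge, h.Bk_ge]
      exact fun a b => b.trans a
  · intro t ht x y hne
    rcases hcase t ht with h' | ⟨s, hs, rfl⟩
    · rw [Bk_le h', Bk_le h']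
      exact lt_or_gt_of_ne ((h.inj h').ne hne)
    · rw [h.Bk_ge, h.Bk_ge]
      exact lt_or_gt_of_ne ((h.inj hs).ne hne.symm)
  · intro t ht x y hxy hyx
    rcases lt_or_ge t N with h' | h'
    · rw [Bk_le h'.le] at hxy
      rw [Bk_le h'] at hyx
      unfold Ek
      rw [if_pos h']
      exact h.chg h' hxy hyx
    · obtain ⟨s, rfl⟩ := Nat.exists_eq_add_of_le h'
      rw [h.Bk_ge] at hxy
      rw [add_assoc, h.Bk_ge] at hyx
      unfold Ek
      rw [if_neg (by omega), Nat.add_sub_cancel_left]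
      exact (h.chg (by omega) hxy hyx).symm
  · intro t x y hE
    exact hE.symm
  · intro t x y y' hE hE'
    exact h.huniq x y y' _ hE hE'

theorem Keys.cut_aux (h : Keys N κ lt0 θ) {t0 : ℕ} (ht0 : t0 ≤ N) {R R' : Finset α}
    (hR : ∀ x ∈ R, ∀ y ∈ R', κ t0 x < κ t0 y) {a b : ℕ} (ha1 : 1 ≤ a) (ha : a ≤ R.card)
    (hb : b ≤ R'.card) : ∃ C : Finset α, Cu N κ C ∧ (C ∩ R).card = a ∧ (C ∩ R').card = b := by
  have hd : Disjoint R R' := by
    rw [disjoint_left]
    intro x hx hx'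
    exact absurd (hR x hx x hx') (lt_irrefl _)
  obtain ⟨t, ht1, ht2, C, hC, hC1, hC2⟩ := h.rseq.cut hd (t1 := t0) (t2 := N + t0) (by omega)
    (by omega) (fun x hx y hy => (Bk_le ht0).2 (hR x hx y hy))
    (fun x hx y hy => h.Bk_ge t0 |>.2 (hR x hx y hy)) ha1 ha hb
  refine ⟨C, ?_, hC1, hC2⟩
  rcases le_or_gt t N with h' | h'
  · exact ⟨t, h', Or.inl fun x hx y hy => (Bk_le h').1 (hC x hx y hy)⟩
  · obtain ⟨s, rfl⟩ := Nat.exists_eq_add_of_le h'.le
    refine ⟨s, by omega, Or.inr fun x hx y hy => ?_⟩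
    rw [mem_compl] at hx
    rw [mem_compl, not_not] at hy
    exact h.Bk_ge s |>.1 (hC y hy x hx)

/-- **Lemma A** -/
theorem Keys.cut (h : Keys N κ lt0 θ) {t0 : ℕ} (ht0 : t0 ≤ N) {R R' : Finset α}
    (hR : ∀ x ∈ R, ∀ y ∈ R', κ t0 x < κ t0 y) {a b : ℕ} (ha : a ≤ R.card)
    (hb : b ≤ R'.card) : ∃ C : Finset α, Cu N κ C ∧ (C ∩ R).card = a ∧ (C ∩ R').card = b := by
  rcases Nat.eq_zero_or_pos a with h0 | h0
  · subst h0
    rcases R.eq_empty_or_nonempty with hR0 | hR0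
    · subst hR0
      refine ⟨Dl (Bk N κ) R' b 0, ⟨0, Nat.zero_le _, Or.inl fun x hx y hy => ?_⟩, by simp,
        Dl_card h.rseq hb (Nat.zero_le _)⟩
      exact (Bk_le (Nat.zero_le _)).1 (Dl_lower h.rseq R' b (Nat.zero_le _) hx hy)
    · obtain ⟨C, hC, hC1, hC2⟩ := h.cut_aux ht0 hR (a := R.card) (b := R'.card - b)
        (card_pos.2 hR0) le_rfl (Nat.sub_le _ _)
      refine ⟨Cᶜ, hC.compl, ?_, ?_⟩
      · have e := card_sdiff_add_card_inter R C
        rw [inter_comm C R] at hC1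
        have e2 : Cᶜ ∩ R = R \ C := by
          ext x
          simp only [mem_inter, mem_compl, mem_sdiff]
          exact and_comm
        rw [e2]
        omega
      · have e := card_sdiff_add_card_inter R' C
        rw [inter_comm C R'] at hC2
        have e2 : Cᶜ ∩ R' = R' \ C := by
          ext x
          simp only [mem_inter, mem_compl, mem_sdiff]
          exact and_comm
        rw [e2]
        omega
  · exact h.cut_aux ht0 hR h0 ha hb

end Pool.Agent.H70.EW
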