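import Pool.Agent.H93.EH.SEQ
import Pool.Agent.H93.EL.Frm
import Pool.Agent.H93.EL.Str
import Pool.Agent.H93.EL.Chn
import Pool.Agent.H70.EW.Key

/-!
# Fluid cuts of the `K`-blow-up of a planar set (MP_737bdd_co, windows `r / (k r + 1)`)
-/

set_option autoImplicit false
set_option linter.unusedSectionVars false

namespace Pool.Agent.H70.EW

open Finset Pool.Agent.H68 Pool.Agent.H93.EL Pool.Agent.H56.EH Pool.Agent.H93.EH
open scoped Classical

/-- every rounding of `C` is a line cut -/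
def Cw (V : Finset (Pt 2)) (K : ℕ) (C : Finset ({x // x ∈ V} × Fin K)) : Prop :=
  ∀ A : Finset (Pt 2), A ⊆ V → (∀ x : {x // x ∈ V}, (∀ j, (x, j) ∈ C) → (x : Pt 2) ∈ A) →
    (∀ x : {x // x ∈ V}, (∀ j, (x, j) ∉ C) → (x : Pt 2) ∉ A) → IsCut V A

variable {V : Finset (Pt 2)} {ε : ℝ} {K : ℕ} {c : ℕ → ℝ}

theorem isCut_of_compl {A : Finset (Pt 2)} (hA : A ⊆ V) (h : IsCut V (V \ A)) : IsCut V A := by
  obtain ⟨-, a, b, c, hab, h1, h2⟩ := h
  refine ⟨hA, -a, -b, -c, ?_, fun p hp => ?_, fun p hp hpA => ?_⟩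
  · rcases hab with h | h
    · exact Or.inl (neg_ne_zero.2 h)
    · exact Or.inr (neg_ne_zero.2 h)
  · have := h2 p (hA hp) (fun h' => (mem_sdiff.1 h').2 hp)
    linarith
  · have := h1 p (mem_sdiff.2 ⟨hp, hpA⟩)
    linarith

theorem Cw.compl {C : Finset ({x // x ∈ V} × Fin K)} (h : Cw V K C) : Cw V K Cᶜ := by
  intro A hA h1 h2
  refine isCut_of_compl hA (h (V \ A) sdiff_subset (fun x hx => ?_) fun x hx hxA => ?_)
  · refine mem_sdiff.2 ⟨x.2, h2 x fun j hj => ?_⟩
    exact (mem_compl.1 hj) (hx j)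
  · exact (mem_sdiff.1 hxA).2 (h1 x fun j => mem_compl.2 (hx j))

theorem Cw_of_lower (hF : Frame V ε) (hK : 0 < K) {t : ℕ} {C : Finset ({x // x ∈ V} × Fin K)}
    (hC : Lower (key V ε K c t) C) : Cw V K C := by
  intro A hA h1 h2
  rcases C.eq_empty_or_nonempty with h0 | hne
  · subst h0
    have hA0 : A = ∅ := by
      rw [eq_empty_iff_forall_notMem]
      intro x hx
      exact h2 ⟨x, hA hx⟩ (fun j => notMem_empty _) hx
    rw [hA0]
    exact low_cut hF (low_empty V ε 0)
  · obtain ⟨a, ha, hmax⟩ := exists_max_image C (key V ε K c t) hne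
    refine low_cut hF (s := c (t / (2 * K))) ⟨hA, fun p hp q hq hqA => ?_⟩
    by_contra hcon
    push Not at hcon
    rcases lt_or_ge (gh ε (c (t / (2 * K))) q) (gh ε (c (t / (2 * K))) a.1) with h3 | h3
    · refine hqA (h1 ⟨q, hq⟩ fun j => ?_)
      by_contra h4
      have h5 := hC a ha _ h4
      exact absurd h5 (key_lt_iff.2 (Or.inl h3)).asymm
    · refine h2 ⟨p, hA hp⟩ (fun j h4 => ?_) hp
      have h5 := hmax _ h4
      exact absurd (key_lt_iff.2 (Or.inl (lt_of_le_of_lt h3 hcon))) (not_lt.2 h5)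

theorem keys (hF : Frame V ε) (hK0 : 0 < K)
    (h1 : ∀ p < (crit V ε).card, c p ∈ crit V ε ∧ ((crit V ε).filter (· < c p)).card = p)
    (h2 : ∀ σ ∈ crit V ε, σ < c (crit V ε).card) :
    Keys ((crit V ε).card * (2 * K) + (2 * K - 1)) (key V ε K c) (lt0 V ε K) (tim V ε K) := by
  have hD : 0 < 2 * K := by omega
  have hdiv : ∀ t ≤ (crit V ε).card * (2 * K) + (2 * K - 1), t / (2 * K) ≤ (crit V ε).card := by
    intro t ht
    rw [← Nat.lt_succ_iff, Nat.div_lt_iff_lt_mul hD, Nat.succ_mul]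
    omega
  refine ⟨?_, ?_, ?_, ?_, ?_⟩
  · intro a b hab
    unfold lt0
    by_cases hx : a.1 = b.1
    · have hi : a.2 ≠ b.2 := fun h => hab (Prod.ext hx h)
      rcases lt_or_gt_of_ne hi with h | h
      · exact Or.inl (Or.inr ⟨hx, h⟩)
      · exact Or.inr (Or.inr ⟨hx.symm, h⟩)
    · have hg : gx ε a.1 ≠ gx ε b.1 := fun h => hx (Subtype.ext (hF.inj _ a.1.2 _ b.1.2 h))
      rcases lt_or_gt_of_ne hg with h | h
      · exact Or.inl (Or.inl h)
      · exact Or.inr (Or.inl h)
  · intro a b h0 t ht h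
    exact (key_main hF hK0 h1 h2 h0 (hdiv t ht)).1 h
  · intro a b h0 t ht h
    exact (key_main hF hK0 h1 h2 h0 (hdiv t ht)).2 h
  · intro a b h0
    exact tim_lt h0
  · have key2 : ∀ a b : {x // x ∈ V} × Fin K, ∀ t,
        (lt0 V ε K a b ∧ tim V ε K a b = t ∨ lt0 V ε K b a ∧ tim V ε K b a = t) →
        (a.1 = b.1 ∧ t / (2 * K) = (crit V ε).card ∧ t % (2 * K) = a.2 + b.2) ∨
        (t / (2 * K) < (crit V ε).card ∧
          gh ε (c (t / (2 * K))) b.1 = gh ε (c (t / (2 * K))) a.1 ∧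
          ((gx ε a.1 < gx ε b.1 ∧ t % (2 * K) = K - 1 - a.2 + b.2) ∨
            (gx ε b.1 < gx ε a.1 ∧ t % (2 * K) = K - 1 - b.2 + a.2))) := by
      intro a b t h
      rcases h with h | h
      · rcases exch hK0 h1 h.1 h.2 with h' | h'
        · exact Or.inl h'
        · exact Or.inr ⟨h'.2.1, h'.2.2.1.symm, Or.inl ⟨h'.1, h'.2.2.2⟩⟩
      · rcases exch hK0 h1 h.1 h.2 with h' | h'
        · exact Or.inl ⟨h'.1.symm, h'.2.1, by rw [h'.2.2, add_comm]⟩
        · exact Or.inr ⟨h'.2.1, h'.2.2.1, Or.inr ⟨h'.1, h'.2.2.2⟩⟩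
    intro a b b' t hb hb'
    have ha2 := a.2.2
    have hb2 := b.2.2
    have hb2' := b'.2.2
    rcases key2 a b t hb with h | h
    · rcases key2 a b' t hb' with h' | h'
      · refine Prod.ext (h.1.symm.trans h'.1) (Fin.ext ?_)
        have e1 := h.2.2
        have e2 := h'.2.2
        omega
      · have e1 := h.2.1
        have e2 := h'.1
        omega
    · rcases key2 a b' t hb' with h' | h'
      · have e1 := h'.2.1
        have e2 := h.1
        omega
      · have hba : (b.1 : Pt 2) ≠ a.1 := by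
          intro he
          rcases h.2.2 with e | e
          · rw [he] at e
            exact absurd e.1 (lt_irrefl _)
          · rw [he] at e
            exact absurd e.1 (lt_irrefl _)
        have hba' : (b'.1 : Pt 2) ≠ a.1 := by
          intro he
          rcases h'.2.2 with e | e
          · rw [he] at e
            exact absurd e.1 (lt_irrefl _)
          · rw [he] at e
            exact absurd e.1 (lt_irrefl _)
        have hbb : (b.1 : Pt 2) = b'.1 :=
          tie hF a.1.2 b.1.2 b'.1.2 hba hba' h.2.1 h'.2.1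
        refine Prod.ext (Subtype.ext hbb) (Fin.ext ?_)
        rcases h.2.2 with e | e
        · rcases h'.2.2 with e' | e'
          · have e1 := e.2
            have e2 := e'.2
            omega
          · have e1 := e.1
            rw [hbb] at e1
            exact absurd e1 e'.1.asymm
        · rcases h'.2.2 with e' | e'
          · have e1 := e.1
            rw [hbb] at e1
            exact absurd e1 e'.1.asymm
          · have e1 := e.2
            have e2 := e'.2
            omega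

/-- halving cuts `S t` of half a turn, and Lemma A for the two sides of each of them -/
structure Seq {P : Type} [Fintype P] [DecidableEq P] (T : ℕ) (S : ℕ → Finset P)
    (cut : Finset P → Prop) : Prop where
  card : ∀ t ≤ T, 2 * (S t).card = Fintype.card P
  step : ∀ t < T, (symmDiff (S t) (S (t + 1))).card ≤ 2
  last : S T = (S 0)ᶜ
  isCut : ∀ t ≤ T, cut (S t)
  two : ∀ t ≤ T, ∀ R ⊆ S t, ∀ R' ⊆ (S t)ᶜ, ∀ a ≤ R.card, ∀ b ≤ R'.card, ∃ C, cut C ∧
    (C ∩ R).card = a ∧ (C ∩ R').card = b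

theorem geo (hF : Frame V ε) (hK : Even K) (hK0 : 0 < K) :
    ∃ (T : ℕ) (S : ℕ → Finset ({x // x ∈ V} × Fin K)), Seq T S (Cw V K) := by
  obtain ⟨c, h1, h2⟩ := exists_slopes (crit V ε)
  have hk := keys hF hK0 h1 h2
  have hs : HSeq ((crit V ε).card * (2 * K) + (2 * K - 1)) (fun t => lowHalf (key V ε K c t)) := by
    refine hseq_of_keys _ _ (lt0 V ε K) (tim V ε K) hk.htot hk.h1 hk.h2 hk.h3 hk.huniq ?_
    rw [Fintype.card_prod, Fintype.card_fin]
    exact hK.mul_left _
  refine ⟨(crit V ε).card * (2 * K) + (2 * K - 1), fun t => lowHalf (key V ε K c t), hs.card, hs.step,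
    hs.last, fun t ht => ?_, fun t ht R hR R' hR' a ha b hb => ?_⟩
  · refine Cw_of_lower (c := c) (t := t) hF hK0 fun x hx y hy => ?_
    exact lt_of_mem (hk.inj ht) hx hy
  · obtain ⟨C, hC, hC1, hC2⟩ := hk.cut ht (R := R) (R' := R') (fun x hx y hy =>
      lt_of_mem (hk.inj ht) (hR hx) (mem_compl.1 (hR' hy))) ha hb
    refine ⟨C, ?_, hC1, hC2⟩
    obtain ⟨s, hs1, hs2 | hs2⟩ := hC
    · exact Cw_of_lower hF hK0 hs2
    · have h3 := (Cw_of_lower hF hK0 hs2).compl
      rwa [compl_compl] at h3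

end Pool.Agent.H70.EW
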